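import Mathlib

/-!
# Colourings of pairs with a hitting set: the minority graph
-/

set_option autoImplicit false

namespace Pool.Agent.Helper6.MC

variable {M Col : Type} [Fintype M] [DecidableEq M] [DecidableEq Col]

/-- the elements at which `x` and `y` differ -/
def Df (c : M → M → Col) (x y : M) : Finset M := Finset.univ.filter (fun z => c x z ≠ c y z)

/-- the colour of a pair determines the colour of the reversed pair -/
def Flip (c : M → M → Col) : Prop := ∀ x y x' y', c x y = c x' y' → c y x = c y' x'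

/-- the class of `x` over `P` -/
def Cl (c : M → M → Col) (P : Finset M) (x : M) : Finset M :=
  Finset.univ.filter (fun y => y ∉ P ∧ ∀ p ∈ P, c y p = c x p)

/-- the elements of large classes -/
def LG (c : M → M → Col) (P : Finset M) (L : ℕ) : Finset M :=
  Finset.univ.filter (fun x => x ∉ P ∧ 4 * L < (Cl c P x).card)

/-- the minority graph -/
def Ed (c : M → M → Col) (P : Finset M) (L : ℕ) (x z : M) : Prop :=
  x ∈ LG c P L ∧ z ∈ LG c P L ∧
    2 * ((Cl c P x).filter (fun x' => c x' z = c x z)).card ≤ (Cl c P x).card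

/-- two elements with the same colours over `P` differ at few elements -/
def Hit (c : M → M → Col) (P : Finset M) (L : ℕ) : Prop :=
  ∀ x y, (∀ p ∈ P, c x p = c y p) → (Df c x y).card ≤ L

variable {c : M → M → Col} {P : Finset M} {L : ℕ}

lemma mem_Cl {x y : M} : y ∈ Cl c P x ↔ y ∉ P ∧ ∀ p ∈ P, c y p = c x p := by
  unfold Cl; simp

lemma mem_LG {x : M} : x ∈ LG c P L ↔ x ∉ P ∧ 4 * L < (Cl c P x).card := by
  unfold LG; simp

lemma mem_Df {x y z : M} : z ∈ Df c x y ↔ c x z ≠ c y z := by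
  unfold Df; simp

lemma self_mem {x : M} (hx : x ∉ P) : x ∈ Cl c P x := mem_Cl.2 ⟨hx, fun _ _ => rfl⟩

lemma Cl_eq {x y : M} (h : y ∈ Cl c P x) : Cl c P y = Cl c P x := by
  have h1 := (mem_Cl.1 h).2
  ext z
  rw [mem_Cl, mem_Cl]
  refine and_congr_right (fun _ => ⟨fun h2 p hp => (h2 p hp).trans (h1 p hp),
    fun h2 p hp => (h2 p hp).trans (h1 p hp).symm⟩)

lemma LG_of_mem {x y : M} (h : y ∈ Cl c P x) (hx : x ∈ LG c P L) : y ∈ LG c P L := by
  rw [mem_LG]
  refine ⟨(mem_Cl.1 h).1, ?_⟩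
  rw [Cl_eq h]
  exact (mem_LG.1 hx).2

/-- `κ` is the colour of more than half of the elements of `A` at `z` -/
def Mj (c : M → M → Col) (A : Finset M) (z : M) (κ : Col) : Prop :=
  A.card < 2 * (A.filter (fun x => c x z = κ)).card

lemma Mj.unique {A : Finset M} {z : M} {κ κ' : Col} (h : Mj c A z κ) (h' : Mj c A z κ') :
    κ = κ' := by
  by_contra hne
  unfold Mj at h h'
  have h1 : Disjoint (A.filter (fun x => c x z = κ)) (A.filter (fun x => c x z = κ')) := by
    rw [Finset.disjoint_left]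
    intro x hx hx'
    exact hne ((Finset.mem_filter.1 hx).2.symm.trans (Finset.mem_filter.1 hx').2)
  have h2 := Finset.card_union_of_disjoint h1
  have h3 : ((A.filter (fun x => c x z = κ)) ∪ (A.filter (fun x => c x z = κ'))).card ≤ A.card :=
    Finset.card_le_card (Finset.union_subset (Finset.filter_subset _ _) (Finset.filter_subset _ _))
  omega

lemma filter_ne_card (A : Finset M) (z : M) (κ : Col) :
    (A.filter (fun x => c x z = κ)).card + (A.filter (fun x => c x z ≠ κ)).card = A.card :=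
  Finset.card_filter_add_card_filter_not (fun x => c x z = κ)

lemma major (hf : Flip c) {A B : Finset M} (hA0 : 4 * L < A.card) (hB0 : 4 * L < B.card)
    (hA : ∀ x ∈ A, ∀ x' ∈ A, (Df c x x').card ≤ L) (hB : ∀ x ∈ B, ∀ x' ∈ B, (Df c x x').card ≤ L) :
    ∃ κ : Col, ∀ z ∈ B, Mj c A z κ := by
  obtain ⟨x0, hx0⟩ : A.Nonempty := Finset.card_pos.1 (by omega)
  have h1 : ∃ z0 ∈ B, 4 * (A.filter (fun x => c x z0 ≠ c x0 z0)).card < A.card := by
    by_contra hcon
    push Not at hcon
    have h2 : ∑ z ∈ B, A.card ≤ ∑ z ∈ B, 4 * (A.filter (fun x => c x z ≠ c x0 z)).card :=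
      Finset.sum_le_sum hcon
    have h3 : ∑ z ∈ B, (A.filter (fun x => c x z ≠ c x0 z)).card =
        ∑ x ∈ A, (B.filter (fun z => c x z ≠ c x0 z)).card := by
      simp only [Finset.card_filter]
      exact Finset.sum_comm
    have h4 : ∑ x ∈ A, (B.filter (fun z => c x z ≠ c x0 z)).card ≤ ∑ x ∈ A, L := by
      refine Finset.sum_le_sum (fun x hx => ?_)
      refine (Finset.card_le_card ?_).trans (hA x hx x0 hx0)
      intro z hz
      exact mem_Df.2 (Finset.mem_filter.1 hz).2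
    rw [← Finset.mul_sum, h3] at h2
    simp only [Finset.sum_const, smul_eq_mul] at h2 h4
    have h5 : B.card * A.card ≤ 4 * (A.card * L) := h2.trans (Nat.mul_le_mul_left 4 h4)
    have h6 : 4 * (A.card * L) < B.card * A.card := by
      have : 4 * L * A.card < B.card * A.card := Nat.mul_lt_mul_of_pos_right hB0 (by omega)
      calc 4 * (A.card * L) = 4 * L * A.card := by ring
        _ < _ := this
    omega
  obtain ⟨z0, hz0, h2⟩ := h1
  refine ⟨c x0 z0, fun z hz => ?_⟩
  have h3 : A.filter (fun x => c x z ≠ c x0 z0) ⊆ A.filter (fun x => c x z0 ≠ c x0 z0) ∪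
      Df c z z0 := by
    intro x hx
    rw [Finset.mem_filter] at hx
    rw [Finset.mem_union, Finset.mem_filter, mem_Df]
    by_cases h : c x z0 = c x0 z0
    · right
      intro h4
      exact hx.2 ((hf _ _ _ _ h4).trans h)
    · exact Or.inl ⟨hx.1, h⟩
  have h4 := (Finset.card_le_card h3).trans (Finset.card_union_le _ _)
  have h5 := hB z hz z0 hz0
  have h6 := filter_ne_card (c := c) A z (c x0 z0)
  unfold Mj
  omega

lemma Df_Cl (hP : Hit c P L) (x : M) : ∀ y ∈ Cl c P x, ∀ y' ∈ Cl c P x, (Df c y y').card ≤ L := by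
  intro y hy y' hy'
  exact hP y y' (fun p hp => ((mem_Cl.1 hy).2 p hp).trans ((mem_Cl.1 hy').2 p hp).symm)

/-- the minority graph between two classes -/
lemma kap (hf : Flip c) (hP : Hit c P L) {x z : M} (hx : x ∈ LG c P L) (hz : z ∈ LG c P L) :
    ∃ κ : Col, (∀ z' ∈ Cl c P z, Mj c (Cl c P x) z' κ) ∧
      ∀ x' ∈ Cl c P x, ∀ z' ∈ Cl c P z, (Ed c P L x' z' ↔ c x' z' ≠ κ) := by
  obtain ⟨κ, hκ⟩ := major hf (mem_LG.1 hx).2 (mem_LG.1 hz).2 (Df_Cl hP x) (Df_Cl hP z)
  refine ⟨κ, hκ, fun x' hx' z' hz' => ?_⟩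
  unfold Ed
  rw [Cl_eq hx']
  constructor
  · rintro ⟨-, -, h⟩ he
    rw [he] at h
    have := hκ z' hz'
    unfold Mj at this
    omega
  · intro h
    refine ⟨LG_of_mem hx' hx, LG_of_mem hz' hz, ?_⟩
    by_contra hcon
    exact h (Mj.unique (A := Cl c P x) (z := z') (not_le.1 hcon) (hκ z' hz'))

lemma Ed_symm (hf : Flip c) (hP : Hit c P L) {x z : M} (h : Ed c P L x z) : Ed c P L z x := by
  have hx := h.1
  have hz := h.2.1
  obtain ⟨κ, h1, h2⟩ := kap hf hP hx hz
  obtain ⟨κ', h1', h2'⟩ := kap hf hP hz hx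
  have hx1 := self_mem (c := c) (mem_LG.1 hx).1
  have hz1 := self_mem (c := c) (mem_LG.1 hz).1
  have h3 : ∃ x1 ∈ Cl c P x, ∃ z1 ∈ Cl c P z, c x1 z1 = κ ∧ c z1 x1 = κ' := by
    by_contra hcon
    push Not at hcon
    have hA : 0 < (Cl c P x).card := Finset.card_pos.2 ⟨x, hx1⟩
    have hB : 0 < (Cl c P z).card := Finset.card_pos.2 ⟨z, hz1⟩
    have e1 : ∑ z1 ∈ Cl c P z, 2 * ((Cl c P x).filter (fun x1 => c x1 z1 ≠ κ)).card <
        ∑ z1 ∈ Cl c P z, (Cl c P x).card := by
      refine Finset.sum_lt_sum_of_nonempty ⟨z, hz1⟩ (fun z1 hz1 => ?_)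
      have h4 := h1 z1 hz1
      have h5 := filter_ne_card (c := c) (Cl c P x) z1 κ
      unfold Mj at h4
      omega
    have e2 : ∑ x1 ∈ Cl c P x, 2 * ((Cl c P z).filter (fun z1 => c z1 x1 ≠ κ')).card <
        ∑ x1 ∈ Cl c P x, (Cl c P z).card := by
      refine Finset.sum_lt_sum_of_nonempty ⟨x, hx1⟩ (fun x1 hx1 => ?_)
      have h4 := h1' x1 hx1
      have h5 := filter_ne_card (c := c) (Cl c P z) x1 κ'
      unfold Mj at h4
      omega
    have e3 : ∑ x1 ∈ Cl c P x, ((Cl c P z).filter (fun z1 => c z1 x1 ≠ κ')).card =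
        ∑ z1 ∈ Cl c P z, ((Cl c P x).filter (fun x1 => c z1 x1 ≠ κ')).card := by
      simp only [Finset.card_filter]
      exact Finset.sum_comm
    have e4 : ∑ z1 ∈ Cl c P z, (Cl c P x).card ≤
        ∑ z1 ∈ Cl c P z, (((Cl c P x).filter (fun x1 => c x1 z1 ≠ κ)).card +
          ((Cl c P x).filter (fun x1 => c z1 x1 ≠ κ')).card) := by
      refine Finset.sum_le_sum (fun z1 hz1 => ?_)
      refine (Finset.card_le_card ?_).trans (Finset.card_union_le _ _)
      intro x1 hx1
      rw [Finset.mem_union, Finset.mem_filter, Finset.mem_filter]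
      by_cases h : c x1 z1 = κ
      · exact Or.inr ⟨hx1, hcon x1 hx1 z1 hz1 h⟩
      · exact Or.inl ⟨hx1, h⟩
    rw [Finset.sum_add_distrib] at e4
    rw [← Finset.mul_sum] at e1 e2
    rw [e3] at e2
    simp only [Finset.sum_const, smul_eq_mul] at e1 e2 e4
    have : (Cl c P x).card * (Cl c P z).card = (Cl c P z).card * (Cl c P x).card := Nat.mul_comm _ _
    omega
  obtain ⟨x1, hx1', z1, hz1', e1, e2⟩ := h3
  rw [h2' z hz1 x hx1]
  intro h4
  refine (h2 x hx1 z hz1).1 h ?_
  rw [← e1]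
  exact hf _ _ _ _ (h4.trans e2.symm)

lemma Ed_hom (hf : Flip c) (hP : Hit c P L) {x z x' z' : M} (hx : x ∈ LG c P L)
    (hz : z ∈ LG c P L) (hx' : x' ∈ Cl c P x) (hz' : z' ∈ Cl c P z) (h : ¬ Ed c P L x z)
    (h' : ¬ Ed c P L x' z') : c x z = c x' z' := by
  obtain ⟨κ, h1, h2⟩ := kap hf hP hx hz
  have e1 : c x z = κ := by
    by_contra hne
    exact h ((h2 x (self_mem (mem_LG.1 hx).1) z (self_mem (mem_LG.1 hz).1)).2 hne)
  have e2 : c x' z' = κ := by
    by_contra hne
    exact h' ((h2 x' hx' z' hz').2 hne)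
  rw [e1, e2]

/-- neighbours -/
noncomputable def Nb (c : M → M → Col) (P : Finset M) (L : ℕ) (x : M) : Finset M :=
  open Classical in Finset.univ.filter (fun z => Ed c P L x z)

lemma mem_Nb {x z : M} : z ∈ Nb c P L x ↔ Ed c P L x z := by
  unfold Nb; simp

/-- the degrees are small -/
lemma Nb_card (hf : Flip c) (hP : Hit c P L) (x : M) : (Nb c P L x).card ≤ 2 * L := by
  classical
  by_cases hx : x ∈ LG c P L
  swap
  · have : Nb c P L x = ∅ := by
      rw [Finset.eq_empty_iff_forall_notMem]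
      intro z hz
      exact hx (mem_Nb.1 hz).1
    rw [this]
    simp
  have hA : 0 < (Cl c P x).card := by
    have := (mem_LG.1 hx).2
    omega
  have h1 : ∀ x' ∈ Cl c P x, (Nb c P L x).card ≤
      ((Nb c P L x).filter (fun z => Ed c P L x' z)).card + L := by
    intro x' hx'
    have h2 : (Nb c P L x) ⊆ ((Nb c P L x).filter (fun z => Ed c P L x' z)) ∪ Df c x x' := by
      intro z hz
      rw [Finset.mem_union, Finset.mem_filter, mem_Df]
      by_cases h : Ed c P L x' z
      · exact Or.inl ⟨hz, h⟩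
      · right
        intro he
        have hz' := mem_Nb.1 hz
        obtain ⟨κ, -, h3⟩ := kap hf hP hx hz'.2.1
        have h4 := (h3 x (self_mem (mem_LG.1 hx).1) z (self_mem (mem_LG.1 hz'.2.1).1)).1 hz'
        rw [he] at h4
        exact h ((h3 x' hx' z (self_mem (mem_LG.1 hz'.2.1).1)).2 h4)
    refine (Finset.card_le_card h2).trans ((Finset.card_union_le _ _).trans ?_)
    exact Nat.add_le_add_left (Df_Cl hP x x (self_mem (mem_LG.1 hx).1) x' hx') _
  have h2 := Finset.sum_le_sum h1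
  rw [Finset.sum_add_distrib] at h2
  have h3 : ∑ x' ∈ Cl c P x, ((Nb c P L x).filter (fun z => Ed c P L x' z)).card =
      ∑ z ∈ Nb c P L x, ((Cl c P x).filter (fun x' => Ed c P L x' z)).card := by
    simp only [Finset.card_filter]
    exact Finset.sum_comm
  have h4 : ∑ z ∈ Nb c P L x, 2 * ((Cl c P x).filter (fun x' => Ed c P L x' z)).card ≤
      ∑ z ∈ Nb c P L x, (Cl c P x).card := by
    refine Finset.sum_le_sum (fun z hz => ?_)
    have hz' := mem_Nb.1 hz
    obtain ⟨κ, h5, h6⟩ := kap hf hP hx hz'.2.1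
    have h7 := h5 z (self_mem (mem_LG.1 hz'.2.1).1)
    have h8 := filter_ne_card (c := c) (Cl c P x) z κ
    have h9 : (Cl c P x).filter (fun x' => Ed c P L x' z) =
        (Cl c P x).filter (fun x' => c x' z ≠ κ) := by
      apply Finset.filter_congr
      intro x' hx'
      exact h6 x' hx' z (self_mem (mem_LG.1 hz'.2.1).1)
    rw [h9]
    unfold Mj at h7
    omega
  rw [← Finset.mul_sum] at h4
  rw [h3] at h2
  simp only [Finset.sum_const, smul_eq_mul] at h2 h4
  have h5 : (Cl c P x).card * (Nb c P L x).card ≤ (Cl c P x).card * (2 * L) := by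
    have e1 : (Nb c P L x).card * (Cl c P x).card = (Cl c P x).card * (Nb c P L x).card :=
      Nat.mul_comm _ _
    have e2 : (Cl c P x).card * (2 * L) = 2 * ((Cl c P x).card * L) := by ring
    omega
  exact Nat.le_of_mul_le_mul_left h5 hA

/-- automorphisms -/
def IsAut (c : M → M → Col) (g : Equiv.Perm M) : Prop := ∀ x y, c (g x) (g y) = c x y

lemma aut_mem_Cl {g : Equiv.Perm M} (hg : IsAut c g) (hgP : ∀ p ∈ P, g p = p) {x : M}
    (hx : x ∉ P) : g x ∈ Cl c P x := by
  rw [mem_Cl]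
  constructor
  · intro h
    have h1 := hgP _ h
    exact hx (g.injective h1 ▸ h)
  · intro p hp
    have := hg x p
    rw [hgP p hp] at this
    exact this

lemma aut_LG {g : Equiv.Perm M} (hg : IsAut c g) (hgP : ∀ p ∈ P, g p = p) {x : M}
    (hx : x ∈ LG c P L) : g x ∈ LG c P L := LG_of_mem (aut_mem_Cl hg hgP (mem_LG.1 hx).1) hx

lemma aut_Ed (hf : Flip c) (hP : Hit c P L) {g : Equiv.Perm M} (hg : IsAut c g)
    (hgP : ∀ p ∈ P, g p = p) {x z : M} (h : Ed c P L x z) : Ed c P L (g x) (g z) := by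
  obtain ⟨κ, h1, h2⟩ := kap hf hP h.1 h.2.1
  have hx := (mem_LG.1 h.1).1
  have hz := (mem_LG.1 h.2.1).1
  rw [h2 _ (aut_mem_Cl hg hgP hx) _ (aut_mem_Cl hg hgP hz), hg x z]
  exact (h2 x (self_mem hx) z (self_mem hz)).1 h

end Pool.Agent.Helper6.MC
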