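import Pool.Agent.Helper6.MC.Count

/-!
# Few automorphisms or a homogeneous family of blocks
-/

set_option autoImplicit false

namespace Pool.Agent.Helper6.MC

variable {M Col : Type} [Fintype M] [DecidableEq M] [DecidableEq Col]

/-- a homogeneous family of `q` blocks of `t` points: all permutations of the blocks are
automorphisms -/
def Fam (c : M → M → Col) (t q : ℕ) : Prop :=
  ∃ u : Fin q × Fin t → M, Function.Injective u ∧
    (∀ i i' a w, (∀ p, u p ≠ w) → c (u (i, a)) w = c (u (i', a)) w) ∧
    (∀ i i' a b, c (u (i, a)) (u (i, b)) = c (u (i', a)) (u (i', b))) ∧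
    ∀ i j i' j' a b, i ≠ j → i' ≠ j' → c (u (i, a)) (u (j, b)) = c (u (i', a)) (u (j', b))

variable {c : M → M → Col} {P : Finset M} {L : ℕ}

lemma not_Ed_of_rt {x y : M} (h : rt c P L x ≠ rt c P L y) : ¬ Ed c P L x y := by
  intro h1
  apply h
  apply rt_eq
  by_cases he : x = y
  · rw [he]
  · exact (Gr_adj.2 ⟨he, Or.inl h1⟩ : (Gr c P L).Adj x y).reachable

/-- a small component with many images gives a family -/
lemma fam_of_Ob (hf : Flip c) (hP : Hit c P L) {k q : ℕ} {x : M} (hx : x ∈ LG c P L)
    (hc : (Cp c P L x).card ≤ k) (hO : q * k < (Ob c P L x).card) :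
    ∃ t, 1 ≤ t ∧ t ≤ k ∧ Fam c t q := by
  classical
  have hxx : x ∈ Cp c P L x := mem_Cp.2 (SimpleGraph.Reachable.refl x)
  have h1 : (Ob c P L x).card ≤ k * ((Ob c P L x).image (rt c P L)).card := by
    apply Finset.card_le_mul_card_image
    intro r hr
    obtain ⟨y, hy, rfl⟩ := Finset.mem_image.1 hr
    obtain ⟨g, hg, rfl⟩ := mem_Ob.1 hy
    have h2 : (Ob c P L x).filter (fun a => rt c P L a = rt c P L (g x)) ⊆ Cp c P L (g x) := by
      intro a ha
      exact mem_Cp.2 (reach_of_rt (Finset.mem_filter.1 ha).2.symm)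
    exact (Finset.card_le_card h2).trans ((Cp_card_map hf hP hg x).trans hc)
  have h2 : q ≤ ((Ob c P L x).image (rt c P L)).card := by
    by_contra hcon
    push Not at hcon
    have h3 : k * ((Ob c P L x).image (rt c P L)).card ≤ k * q := Nat.mul_le_mul_left k hcon.le
    have : k * q = q * k := Nat.mul_comm _ _
    omega
  obtain ⟨I, hI, hIq⟩ := Finset.exists_subset_card_eq h2
  have eI : Fin q ≃ I := (Finset.equivFinOfCardEq hIq).symm
  have h3 : ∀ i : Fin q, ∃ g, FixA c P L g ∧ rt c P L (g x) = (eI i : M) := by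
    intro i
    obtain ⟨y, hy, hy'⟩ := Finset.mem_image.1 (hI (eI i).2)
    obtain ⟨g, hg, rfl⟩ := mem_Ob.1 hy
    exact ⟨g, hg, hy'⟩
  choose g hg hgr using h3
  let e := (Cp c P L x).equivFin
  let z : Fin (Cp c P L x).card → M := fun a => ((e.symm a : Cp c P L x) : M)
  have hz : ∀ a, (Gr c P L).Reachable x (z a) := fun a => mem_Cp.1 (e.symm a).2
  have hzW : ∀ a, z a ∈ LG c P L := fun a => LG_reach hx (hz a)
  have hzinj : Function.Injective z := fun a b hab => e.symm.injective (Subtype.ext hab)
  have hrt : ∀ i a, rt c P L (g i (z a)) = (eI i : M) := by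
    intro i a
    rw [← hgr i]
    exact (rt_eq (reach_map hf hP (hg i) (hz a))).symm
  have hcl : ∀ i a, g i (z a) ∈ Cl c P (z a) := fun i a =>
    aut_mem_Cl (hg i).1 (hg i).fixP (mem_LG.1 (hzW a)).1
  have hcl' : ∀ i i' a, g i' (z a) ∈ Cl c P (g i (z a)) := by
    intro i i' a
    rw [Cl_eq (hcl i a)]
    exact hcl i' a
  have hgW : ∀ i a, g i (z a) ∈ LG c P L := fun i a => LG_of_mem (hcl i a) (hzW a)
  have hij : ∀ i j, i ≠ j → ∀ a b, rt c P L (g i (z a)) ≠ rt c P L (g j (z b)) := by
    intro i j hij a b h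
    rw [hrt, hrt] at h
    exact hij (eI.injective (Subtype.ext h))
  refine ⟨(Cp c P L x).card, Finset.card_pos.2 ⟨x, hxx⟩, hc, fun p => g p.1 (z p.2), ?_, ?_, ?_, ?_⟩
  · rintro ⟨i, a⟩ ⟨j, b⟩ h
    have h' : g i (z a) = g j (z b) := h
    have h4 : i = j := by
      by_contra hne
      exact hij i j hne a b (congrArg _ h')
    subst h4
    have h5 := hzinj ((g i).injective h')
    rw [h5]
  · intro i i' a w hw
    show c (g i (z a)) w = c (g i' (z a)) w
    by_cases hwW : w ∈ LG c P L
    · have hne : ∀ i, ¬ Ed c P L (g i (z a)) w := by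
        intro i
        apply not_Ed_of_rt
        intro h
        have h4 := reach_of_rt h
        have h5 := reach_map hf hP (hg i).inv h4
        rw [Equiv.symm_apply_apply] at h5
        have h6 : (g i).symm w ∈ Cp c P L x := mem_Cp.2 ((hz a).trans h5)
        apply hw (i, e ⟨_, h6⟩)
        show g i ((e.symm (e ⟨_, h6⟩) : Cp c P L x) : M) = w
        rw [Equiv.symm_apply_apply]
        exact (g i).apply_symm_apply w
      exact Ed_hom hf hP (hgW i a) hwW (hcl' i i' a) (self_mem (mem_LG.1 hwW).1) (hne i) (hne i')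
    · have h4 : ∀ i, c (g i (z a)) w = c (z a) w := by
        intro i
        have := (hg i).1 (z a) w
        rw [(hg i).2 w hwW] at this
        exact this
      rw [h4, h4]
  · intro i i' a b
    show c (g i (z a)) (g i (z b)) = c (g i' (z a)) (g i' (z b))
    rw [(hg i).1, (hg i').1]
  · intro i j i' j' a b h h'
    show c (g i (z a)) (g j (z b)) = c (g i' (z a)) (g j' (z b))
    exact Ed_hom hf hP (hgW i a) (hgW j b) (hcl' i i' a) (hcl' j j' b)
      (not_Ed_of_rt (hij i j h a b)) (not_Ed_of_rt (hij i' j' h' a b))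

/-- passing to the automorphisms which fix everything outside the large classes -/
lemma card_IsAut (hL : 1 ≤ L) [Fintype {g : Equiv.Perm M // IsAut c g}]
    [Fintype {g : Equiv.Perm M // FixA c P L g}] :
    Fintype.card {g : Equiv.Perm M // IsAut c g} ≤ Fintype.card {g : Equiv.Perm M // FixA c P L g} *
      (Fintype.card M ^ P.card * (4 * L) ^ Fintype.card M) := by
  classical
  let res : {g : Equiv.Perm M // IsAut c g} → (M → M) := fun g x =>
    if x ∈ LG c P L then x else g.1 x
  have h1 : Fintype.card {g : Equiv.Perm M // IsAut c g} ≤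
      Fintype.card {g : Equiv.Perm M // FixA c P L g} * (Finset.univ.image res).card := by
    rw [← Finset.card_univ (α := {g : Equiv.Perm M // IsAut c g})]
    apply Finset.card_le_mul_card_image
    intro φ hφ
    obtain ⟨g0, -, rfl⟩ := Finset.mem_image.1 hφ
    rw [← Finset.card_univ (α := {g : Equiv.Perm M // FixA c P L g})]
    have hfix : ∀ g : {g : Equiv.Perm M // IsAut c g}, res g = res g0 →
        FixA c P L (g.1.trans g0.1.symm) := by
      intro g hg
      refine ⟨g0.2.inv.mul g.2, fun x hx => ?_⟩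
      have h2 : res g x = res g0 x := congrFun hg x
      have h3 : res g x = g.1 x := if_neg hx
      have h4 : res g0 x = g0.1 x := if_neg hx
      rw [h3, h4] at h2
      show g0.1.symm (g.1 x) = x
      rw [h2, Equiv.symm_apply_apply]
    apply Finset.card_le_card_of_injOn (fun g => if h : res g = res g0 then
      (⟨g.1.trans g0.1.symm, hfix g h⟩ : {g : Equiv.Perm M // FixA c P L g}) else
      ⟨Equiv.refl M, fun _ _ => rfl, fun _ _ => rfl⟩)
    · intro g _
      exact Finset.mem_coe.2 (Finset.mem_univ _)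
    · intro g hg h hh hgh
      have hg' := (Finset.mem_filter.1 (Finset.mem_coe.1 hg)).2
      have hh' := (Finset.mem_filter.1 (Finset.mem_coe.1 hh)).2
      simp only [dif_pos hg', dif_pos hh', Subtype.mk.injEq] at hgh
      apply Subtype.ext
      apply Equiv.ext
      intro x
      have h5 : g0.1.symm (g.1 x) = g0.1.symm (h.1 x) := congrArg (fun f : Equiv.Perm M => f x) hgh
      exact g0.1.symm.injective h5
  refine h1.trans (Nat.mul_le_mul_left _ ?_)
  rw [← Fintype.card_coe]
  have hres : ∀ (g : {g : Equiv.Perm M // IsAut c g}), ∀ p ∈ P, res g p = g.1 p := by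
    intro g p hp
    exact if_neg (fun h => (mem_LG.1 h).1 hp)
  let T : M → {φ // φ ∈ Finset.univ.image res} → Finset M := fun x φ =>
    if x ∈ P then Finset.univ else if x ∈ LG c P L then {x} else
      Finset.univ.filter (fun y => y ∉ P.image φ.1 ∧ ∀ p ∈ P, c y (φ.1 p) = c x p)
  have h2 := count_le (X := {φ // φ ∈ Finset.univ.image res}) (M := M) Subtype.val
    Subtype.val_injective (fun x => if x ∈ P then 0 else 1)
    (fun x => if x ∈ P then Fintype.card M else 4 * L) T ?_ ?_ ?_
  · refine h2.trans ?_
    have h3 : ∀ x ∈ (Finset.univ : Finset M), (if x ∈ P then Fintype.card M else 4 * L) ≤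
        (if x ∈ P then Fintype.card M else 1) * (4 * L) := by
      intro x _
      by_cases hx : x ∈ P
      · rw [if_pos hx, if_pos hx]
        exact Nat.le_mul_of_pos_right _ (by omega)
      · rw [if_neg hx, if_neg hx]
        omega
    refine (Finset.prod_le_prod' h3).trans ?_
    rw [Finset.prod_mul_distrib, Finset.prod_const, Finset.card_univ, Finset.prod_ite_mem,
      Finset.univ_inter, Finset.prod_const]
  · rintro x ⟨φ, hφ⟩
    obtain ⟨g, -, rfl⟩ := Finset.mem_image.1 hφ
    show res g x ∈ (if x ∈ P then Finset.univ else if x ∈ LG c P L then {x} else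
      Finset.univ.filter (fun y => y ∉ P.image (res g) ∧ ∀ p ∈ P, c y (res g p) = c x p) :
        Finset M)
    by_cases hx : x ∈ P
    · rw [if_pos hx]
      exact Finset.mem_univ _
    · rw [if_neg hx]
      by_cases hx' : x ∈ LG c P L
      · rw [if_pos hx', Finset.mem_singleton]
        exact if_pos hx'
      · rw [if_neg hx', Finset.mem_filter]
        have e : res g x = g.1 x := if_neg hx'
        rw [e]
        refine ⟨Finset.mem_univ _, ?_, ?_⟩
        · intro h
          obtain ⟨p, hp, hp'⟩ := Finset.mem_image.1 h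
          rw [hres g p hp] at hp'
          exact hx (g.1.injective hp' ▸ hp)
        · intro p hp
          rw [hres g p hp]
          exact g.2 x p
  · rintro x ⟨φ, hφ⟩
    obtain ⟨g, -, rfl⟩ := Finset.mem_image.1 hφ
    show (if x ∈ P then Finset.univ else if x ∈ LG c P L then {x} else
      Finset.univ.filter (fun y => y ∉ P.image (res g) ∧ ∀ p ∈ P, c y (res g p) = c x p) :
        Finset M).card ≤ if x ∈ P then Fintype.card M else 4 * L
    by_cases hx : x ∈ P
    · rw [if_pos hx, if_pos hx, Finset.card_univ]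
    · rw [if_neg hx, if_neg hx]
      by_cases hx' : x ∈ LG c P L
      · rw [if_pos hx', Finset.card_singleton]
        omega
      · rw [if_neg hx']
        have h4 : (Cl c P x).card ≤ 4 * L := by
          by_contra hcon
          exact hx' (mem_LG.2 ⟨hx, not_le.1 hcon⟩)
        refine le_trans ?_ h4
        apply Finset.card_le_card_of_injOn (fun y => g.1.symm y)
        · intro y hy
          have hy' := (Finset.mem_filter.1 (Finset.mem_coe.1 hy)).2
          apply Finset.mem_coe.2
          rw [mem_Cl]
          constructor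
          · intro h
            apply hy'.1
            rw [Finset.mem_image]
            refine ⟨_, h, ?_⟩
            rw [hres g _ h]
            exact g.1.apply_symm_apply y
          · intro p hp
            have h5 := hy'.2 p hp
            rw [hres g p hp] at h5
            have h6 := g.2 (g.1.symm y) p
            rw [Equiv.apply_symm_apply] at h6
            rw [← h6]
            exact h5
        · intro y _ z _ hyz
          exact g.1.symm.injective hyz
  · rintro x ⟨φ, hφ⟩ ⟨ψ, hψ⟩ h
    show (if x ∈ P then Finset.univ else if x ∈ LG c P L then {x} else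
      Finset.univ.filter (fun y => y ∉ P.image φ ∧ ∀ p ∈ P, c y (φ p) = c x p) : Finset M) =
      (if x ∈ P then Finset.univ else if x ∈ LG c P L then {x} else
      Finset.univ.filter (fun y => y ∉ P.image ψ ∧ ∀ p ∈ P, c y (ψ p) = c x p) : Finset M)
    by_cases hx : x ∈ P
    · rw [if_pos hx, if_pos hx]
    · have h4 : ∀ p ∈ P, φ p = ψ p := by
        intro p hp
        apply h p
        rw [if_pos hp, if_neg hx]
        exact Nat.zero_lt_one
      have h5 : P.image φ = P.image ψ := Finset.image_congr (fun p hp => h4 p hp)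
      have h6 : (Finset.univ.filter (fun y => y ∉ P.image φ ∧ ∀ p ∈ P, c y (φ p) = c x p)) =
          (Finset.univ.filter (fun y => y ∉ P.image ψ ∧ ∀ p ∈ P, c y (ψ p) = c x p)) := by
        apply Finset.filter_congr
        intro y _
        rw [h5]
        refine and_congr_right (fun _ => ⟨fun h7 p hp => ?_, fun h7 p hp => ?_⟩)
        · rw [← h4 p hp]; exact h7 p hp
        · rw [h4 p hp]; exact h7 p hp
      rw [h6]

/-- few automorphisms or a homogeneous family -/
theorem homOrCount (hf : Flip c) {k q L : ℕ} (hL : 1 ≤ L) (P : Finset M)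
    (hP : Hit c P L) [Fintype {g : Equiv.Perm M // IsAut c g}] :
    (∃ t, 1 ≤ t ∧ t ≤ k ∧ Fam c t q) ∨ Fintype.card {g : Equiv.Perm M // IsAut c g} ≤
      (Fintype.card M ^ (Fintype.card M / (k + 1)) * (q * k + 1) ^ Fintype.card M *
        (2 * L) ^ Fintype.card M) * (Fintype.card M ^ P.card * (4 * L) ^ Fintype.card M) := by
  classical
  by_cases hO : ∀ x ∈ LG c P L, rt c P L x = x → (Cp c P L x).card ≤ k →
      (Ob c P L x).card ≤ q * k
  · right
    exact (card_IsAut hL).trans (Nat.mul_le_mul_right _ (card_FixA hf hP hL hO))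
  · left
    push Not at hO
    obtain ⟨x, hx, -, hc, hO⟩ := hO
    exact fam_of_Ob hf hP hx hc hO

/-- all permutations of the blocks are automorphisms -/
lemma Fam.perm (hf : Flip c) {t q : ℕ} (h : Fam c t q) : ∃ u : Fin q × Fin t → M,
    Function.Injective u ∧ ∀ (π : Equiv.Perm (Fin q)) (σ : Equiv.Perm M),
      (∀ i x, σ (u (i, x)) = u (π i, x)) → (∀ z, (∀ p, u p ≠ z) → σ z = z) → IsAut c σ := by
  obtain ⟨u, hu, h1, h2, h3⟩ := h
  refine ⟨u, hu, fun π σ hσ hσ' => ?_⟩
  have key : ∀ i a z, c (σ (u (i, a))) (σ z) = c (u (i, a)) z := by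
    intro i a z
    rw [hσ]
    by_cases hz : ∃ p, u p = z
    · obtain ⟨⟨j, b⟩, rfl⟩ := hz
      rw [hσ]
      by_cases hij : i = j
      · subst hij
        exact h2 _ _ a b
      · exact h3 _ _ _ _ a b (fun h => hij (π.injective h)) hij
    · push Not at hz
      rw [hσ' z hz]
      exact h1 _ _ a z hz
  intro y z
  by_cases hy : ∃ p, u p = y
  · obtain ⟨⟨i, a⟩, rfl⟩ := hy
    exact key i a z
  · by_cases hz : ∃ p, u p = z
    · obtain ⟨⟨j, b⟩, rfl⟩ := hz
      exact hf _ _ _ _ (key j b y)
    · push Not at hy hz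
      rw [hσ' y hy, hσ' z hz]

end Pool.Agent.Helper6.MC
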