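import Pool.Agent.Helper6.MC.Sharp1
import Pool.Agent.Helper40.MC.Tame
import Pool.Agent.Helper12.MC.AP

/-!
# Few models: the sharp threshold
-/

set_option autoImplicit false

namespace Pool.Agent.Helper6.MC

open FirstOrder Pool.Agent.Helper20.Spectra Pool.Agent.Helper31.QD Pool.Agent.Helper38.MC
  Pool.Agent.Helper58.QD Pool.Agent.Helper40.MC

/-- one block can be taken away, and small families of the rest are families of the whole -/
def StmtLift : Prop := ∀ (S : Type) [Finite S] (ar : S → ℕ) (χ : (RelLang S ar).Sentence)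
  (n q t Q r : ℕ) (R : Interp S ar (Fin n)), (∀ s, ar s ≤ r) → IsMod χ R → FamR R (q + 1) t →
  qd χ ≤ q → 1 ≤ q → ∃ n', n' + t = n ∧ ∃ R' : Interp S ar (Fin n'), IsMod χ R' ∧
    ∀ t', Q * t' + r < q → FamR R' Q t' → FamR R Q t'

lemma FamR.fewer {S : Type} {ar : S → ℕ} {V : Type} {R : Interp S ar V} {q q' t : ℕ}
    (h : FamR R q' t) (hq : q ≤ q') : FamR R q t := by
  obtain ⟨u, hu, hu'⟩ := h
  exact Pool.Agent.Helper38.MC.fewer hq u hu hu'

lemma two_mul_le {a : ℕ} (ha : 4 ≤ a) : 2 * a ≤ 2 ^ (a - 1) := by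
  induction a, ha using Nat.le_induction with
  | base => norm_num
  | succ a ha ih =>
    have e : a + 1 - 1 = (a - 1) + 1 := by omega
    rw [e, pow_succ]
    omega

/-- every large model has a family of blocks of bounded size -/
theorem bounded_fam (hL : StmtLift) {S : Type} [Finite S] {ar : S → ℕ} {r : ℕ}
    (har : ∀ s, ar s ≤ r) (χ : (RelLang S ar).Sentence) (Q n₀ : ℕ)
    (hQ : ∀ n, n₀ ≤ n → Q ≤ lam n ^ 2)
    (hfam : ∀ n, n₀ ≤ n → ∀ R : Interp S ar (Fin n), IsMod χ R → ∃ t, 1 ≤ t ∧ t ≤ lam n ∧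
      FamR R (lam n ^ 2) t) :
    ∃ K, ∀ n, n₀ ≤ n → ∀ R : Interp S ar (Fin n), IsMod χ R → ∃ t, 1 ≤ t ∧ t ≤ K ∧ FamR R Q t := by
  obtain ⟨K, hK⟩ : ∃ K, K = n₀ + Q + r + qd χ + 4 := ⟨_, rfl⟩
  refine ⟨K, fun n => ?_⟩
  induction n using Nat.strong_induction_on with
  | _ n ih =>
    intro hn R hR
    obtain ⟨t, ht1, ht2, hF⟩ := hfam n hn R hR
    by_contra hcon
    push Not at hcon
    -- the blocks are large
    have htK : K < t := by
      by_contra h
      push Not at h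
      exact hcon t ht1 h (hF.fewer (hQ n hn))
    have hlam : K + 1 ≤ lam n := by omega
    have hsq : K * K + 2 * K + 1 ≤ lam n ^ 2 := by
      have h1 : (K + 1) * (K + 1) ≤ lam n * lam n := Nat.mul_le_mul hlam hlam
      have e1 : (K + 1) * (K + 1) = K * K + 2 * K + 1 := by ring
      have e2 : lam n ^ 2 = lam n * lam n := by ring
      omega
    obtain ⟨q, hq⟩ : ∃ q, lam n ^ 2 = q + 1 := ⟨lam n ^ 2 - 1, by omega⟩
    rw [hq] at hF hsq
    obtain ⟨n', hn', R', hR', hlift⟩ := hL S ar χ n q t Q r R har hR hF (by omega) (by omega)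
    have hn1 : 1 ≤ n := by omega
    have h2 := two_pow_le hn1
    have h3 := two_mul_le (a := lam n) (by omega)
    obtain ⟨t', ht1', ht2', hF'⟩ := ih n' (by omega) (by omega) R' hR'
    refine hcon t' ht1' ht2' (hlift t' ?_ hF')
    have h4 : Q * t' ≤ K * K := Nat.mul_le_mul (by omega) ht2'
    omega

/-- the sharp threshold for first-order sentences -/
theorem sharp (hL : StmtLift) (r : ℕ) : ∃ C : ℕ, ∀ (S : Type) [Finite S] (ar : S → ℕ),
    (∀ s, ar s ≤ r) → ∀ χ : (RelLang S ar).Sentence,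
    (∀ᶠ n : ℕ in Filter.atTop, count χ n * (Nat.log 2 n + 1) ^ (C * n) ≤ n.factorial) →
    ∃ k, FinAP k (Pool.Agent.Helper40.MC.spec χ) := by
  obtain ⟨C, n₀, hC⟩ := hom_sharp r
  refine ⟨C, fun S _ ar har χ hcount => ?_⟩
  obtain ⟨n₁, hn₁⟩ := Filter.eventually_atTop.1 hcount
  obtain ⟨Q, hQ⟩ : ∃ Q, Q = max 1 (qd χ) := ⟨_, rfl⟩
  have hQ1 : 1 ≤ Q := by rw [hQ]; exact le_max_left _ _
  have hQ2 : qd χ ≤ Q := by rw [hQ]; exact le_max_right _ _
  have hlarge : ∀ n, 2 ^ Q ≤ n → Q ≤ lam n ^ 2 := by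
    intro n hn
    have h1 : Q < lam n := (Nat.pow_lt_pow_iff_right (by norm_num : 1 < 2)).1
      (hn.trans_lt (lt_two_lam n))
    have h2 : lam n ≤ lam n ^ 2 := Nat.le_self_pow (by norm_num) _
    omega
  obtain ⟨K, hK⟩ := bounded_fam hL har χ Q (max n₀ (max n₁ (2 ^ Q)))
    (fun n hn => hlarge n ((le_max_right _ _).trans ((le_max_right _ _).trans hn)))
    (fun n hn R hR => hC n ((le_max_left _ _).trans hn) S ar har R (by
      have h1 : count χ n * lam n ^ (C * n) ≤ n.factorial :=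
        hn₁ n ((le_max_left _ _).trans ((le_max_right _ _).trans hn))
      have h2 : n.factorial ≤ count χ n * Nat.card (AuG R) := factorial_le hR
      have h3 : 0 < count χ n := by
        have h4 := n.factorial_pos.trans_le h2
        exact Nat.pos_of_mul_pos_right h4
      exact Nat.le_of_mul_le_mul_left (h1.trans h2) h3))
  refine ⟨K, (Pool.Agent.Helper12.MC.stmtAP _ _).1 ⟨max n₀ (max n₁ (2 ^ Q)), ?_⟩⟩
  rintro n ⟨-, R, hR⟩ hn
  obtain ⟨t, ht1, ht2, u, hu, hu'⟩ := hK n hn R hR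
  refine ⟨t, ht1, ht2, fun j => ⟨?_, pump χ R hR hQ1 hQ2 u hu hu' j⟩⟩
  have h5 : 1 ≤ 2 ^ Q := Nat.one_le_two_pow
  have h6 : 2 ^ Q ≤ n := (le_max_right _ _).trans ((le_max_right _ _).trans hn)
  omega

end Pool.Agent.Helper6.MC
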