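import Pool.Agent.Helper6.MC.PumpS
import Pool.Agent.Helper40.MC.MDefs

/-!
# Pumping homogeneous families of blocks: the block of the main theorem
-/

set_option autoImplicit false

namespace Pool.Agent.Helper6.MC

open FirstOrder FirstOrder.Language Pool.Agent.Helper20.Spectra Pool.Agent.Helper31.QD
  Pool.Agent.Helper29.MW Pool.Agent.Helper14.SS Pool.Agent.Helper20.MW Pool.Agent.Helper20.EX2
  Pool.Agent.Helper40.MCM

variable {S : Type} {ar : S → ℕ}

/-- monadic second-order sentences in the two forms -/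
theorem exists_mfm (φ : SFm (RelLang S ar) 0 0) : ∃ ψ : MFm S ar 0 0, ∀ (M : Type) [Fintype M]
    (R : Interp S ar M), SatM φ R ↔ MSat R ψ := by
  obtain ⟨ψ, hψ⟩ := toMF φ
  refine ⟨ψ, fun M _ R => ?_⟩
  have h1 := @holds_iff_sat (RelLang S ar) M (mkS R) _ (Fintype.card M)
    (by rw [Nat.card_eq_fintype_card]) 0 0 φ Fin.elim0 Fin.elim0
  have e : (fun j : Fin 0 => (((Fin.elim0 : Fin 0 → Finset M) j : Finset M) : Set M)) =
      Fin.elim0 := funext fun j => j.elim0
  rw [e] at h1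
  exact h1.trans (hψ M R Fin.elim0 Fin.elim0).symm

/-- the block of the main theorem -/
theorem stmtPumpM : StmtPumpM := by
  intro S _ ar φ t
  obtain ⟨ψ, hψ⟩ := exists_mfm φ
  obtain ⟨q₀, hq₀, h⟩ := pumpM ψ t
  refine ⟨q₀, fun q hq _ n R hM u hu hR j => ?_⟩
  obtain ⟨R', hR'⟩ := h hq R ((hψ (Fin n) R).1 hM) u hu hR j
  exact ⟨R', (hψ (Fin (n + t * j)) R').2 hR'⟩

end Pool.Agent.Helper6.MC
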