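import Pool.Agent.Helper38.MC.Pump
import Pool.Agent.Helper29.MW.Eq

/-!
# Pumping homogeneous families of blocks: monadic second-order sentences
-/

set_option autoImplicit false

namespace Pool.Agent.Helper6.MC

open Pool.Agent.Helper20.Spectra Pool.Agent.Helper31.QD Pool.Agent.Helper38.MC
  Pool.Agent.Helper29.MW

variable {S : Type} {ar : S → ℕ} {N T ι κ : Type}

/-! ### Local isomorphisms -/

/-- `R'` arises from `R` by renaming blocks -/
def LI (R : Interp S ar (N ⊕ ι × T)) (R' : Interp S ar (N ⊕ κ × T)) : Prop :=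
  ∀ (s : S) (t : Fin (ar s) → N ⊕ ι × T) (g : ι → κ), Set.InjOn g (used t) →
    (R' s (mp g ∘ t) ↔ R s t)

lemma used_mp {k : ℕ} (t : Fin k → N ⊕ κ × T) (g : κ → ι) {i : ι} (h : i ∈ used (mp g ∘ t)) :
    ∃ j ∈ used t, g j = i := by
  obtain ⟨a, x, h⟩ := h
  have h' : mp g (t a) = Sum.inr (i, x) := h
  rcases e : t a with y | ⟨j, y⟩
  · rw [e] at h'
    exact absurd h' (by simp [mp])
  · rw [e] at h'
    exact ⟨j, ⟨a, y, e⟩, congrArg Prod.fst (Sum.inr_injective h')⟩

lemma mp_id (t : N ⊕ κ × T) : mp (id : κ → κ) t = t := by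
  rcases t with x | ⟨i, x⟩ <;> rfl

lemma LI.symm [Nonempty κ] {R : Interp S ar (N ⊕ ι × T)} {R' : Interp S ar (N ⊕ κ × T)}
    (h : LI R R') : LI R' R := by
  intro s t g hg
  have h1 : ∀ i ∈ used t, Function.invFunOn g (used t) (g i) = i := fun i hi =>
    hg (Function.invFunOn_mem ⟨i, hi, rfl⟩) hi (Function.invFunOn_eq ⟨i, hi, rfl⟩)
  have h2 := h s (mp g ∘ t) (Function.invFunOn g (used t)) (by
    intro i hi j hj hij
    obtain ⟨i', hi', rfl⟩ := used_mp t g hi
    obtain ⟨j', hj', rfl⟩ := used_mp t g hj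
    rw [h1 _ hi', h1 _ hj'] at hij
    rw [hij])
  have e : mp (Function.invFunOn g (used t)) ∘ (mp g ∘ t) = t := by
    have e1 : mp (Function.invFunOn g (used t)) ∘ (mp g ∘ t) =
        mp (Function.invFunOn g (used t) ∘ g) ∘ t := by
      funext a
      exact mp_mp g _ (t a)
    have e2 : mp (Function.invFunOn g (used t) ∘ g) ∘ t = mp id ∘ t :=
      mp_congr (fun i hi => h1 i hi)
    rw [e1, e2]
    funext a
    exact mp_id (t a)
  rw [e] at h2
  exact h2.symm

lemma LI_ext [Finite ι] [Nonempty ι] {R : Interp S ar (N ⊕ ι × T)}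
    (hR : ∀ π : Equiv.Perm ι, Au R (bp π)) (κ : Type) : LI R (ext R κ) := by
  intro s t g hg
  have h0 : ∀ g' : κ → ι, mp g' ∘ (mp g ∘ t) = mp (g' ∘ g) ∘ t := by
    intro g'
    funext a
    exact mp_mp g g' (t a)
  have h1 : ∀ i ∈ used t, g i ∈ used (mp g ∘ t) := by
    rintro i ⟨a, x, h⟩
    refine ⟨a, x, ?_⟩
    show mp g (t a) = _
    rw [h]
    rfl
  have h2 : ∀ g' : κ → ι, Set.InjOn g' (used (mp g ∘ t)) →
      (R s (mp g' ∘ (mp g ∘ t)) ↔ R s t) := by
    intro g' hg'
    rw [h0]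
    have h3 := inv_choice hR t (g := g' ∘ g) (g' := id)
      (fun a ha b hb hab => hg ha hb (hg' (h1 a ha) (h1 b hb) hab)) (fun a _ b _ hab => hab)
    rw [h3]
    have e : mp (id : ι → ι) ∘ t = t := by
      funext a
      exact mp_id (t a)
    rw [e]
  constructor
  · rintro ⟨g', hg', h⟩
    exact (h2 g' hg').1 h
  · intro h
    have h3 : Set.InjOn (Function.invFunOn g (used t)) (used (mp g ∘ t)) := by
      intro i hi j hj hij
      obtain ⟨i', hi', rfl⟩ := used_mp t g hi
      obtain ⟨j', hj', rfl⟩ := used_mp t g hj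
      have e : ∀ i ∈ used t, Function.invFunOn g (used t) (g i) = i := fun i hi =>
        hg (Function.invFunOn_mem ⟨i, hi, rfl⟩) hi (Function.invFunOn_eq ⟨i, hi, rfl⟩)
      rw [e _ hi', e _ hj'] at hij
      rw [hij]
    exact ⟨_, h3, (h2 _ h3).2 h⟩

/-! ### Counting up to a threshold -/

/-- equal or both large -/
def Cmp (K a b : ℕ) : Prop := a = b ∨ (K ≤ a ∧ K ≤ b)

lemma Cmp.symm {K a b : ℕ} (h : Cmp K a b) : Cmp K b a := by
  unfold Cmp at *
  omega

lemma Cmp.mono {K K' a b : ℕ} (h : Cmp K a b) (hK : K' ≤ K) : Cmp K' a b := by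
  unfold Cmp at *
  omega

/-- splitting a class -/
lemma split {A B Tr : Type} [Finite A] [Finite B] [Fintype Tr] [Nonempty Tr] (K : ℕ)
    (h : Cmp (Fintype.card Tr * K) (Nat.card A) (Nat.card B)) (f : A → Tr) :
    ∃ f' : B → Tr, ∀ τ, Cmp K (Nat.card {a // f a = τ}) (Nat.card {b // f' b = τ}) := by
  classical
  have := Fintype.ofFinite A
  have := Fintype.ofFinite B
  rcases h with h | ⟨h1, h2⟩
  · obtain ⟨e0⟩ := Finite.card_eq.1 h
    have e : B ≃ A := e0.symm
    refine ⟨f ∘ e, fun τ => Or.inl ?_⟩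
    exact (Nat.card_congr (e.subtypeEquiv (fun b => Iff.rfl))).symm
  · have hs : 1 ≤ Fintype.card Tr := Fintype.card_pos
    have hsum : Nat.card A = ∑ τ, Nat.card {a // f a = τ} := by
      rw [Nat.card_eq_fintype_card, ← Fintype.card_congr (Equiv.sigmaFiberEquiv f),
        Fintype.card_sigma]
      exact Finset.sum_congr rfl (fun τ _ => (Nat.card_eq_fintype_card).symm)
    obtain ⟨τ0, hτ0⟩ : ∃ τ0, K ≤ Nat.card {a // f a = τ0} := by
      by_contra hcon
      push Not at hcon
      have h3 : ∑ τ, Nat.card {a // f a = τ} < ∑ _τ : Tr, K :=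
        Finset.sum_lt_sum_of_nonempty Finset.univ_nonempty (fun τ _ => hcon τ)
      rw [← hsum, Finset.sum_const, Finset.card_univ, smul_eq_mul] at h3
      omega
    let w : Tr → ℕ := fun τ => min (Nat.card {a // f a = τ}) K
    have hw : ∑ τ ∈ Finset.univ.erase τ0, w τ + K ≤ Nat.card B := by
      have h3 : ∑ τ ∈ Finset.univ.erase τ0, w τ ≤ ∑ τ ∈ Finset.univ.erase τ0, K :=
        Finset.sum_le_sum (fun τ _ => min_le_right _ _)
      rw [Finset.sum_const, Finset.card_erase_of_mem (Finset.mem_univ _), Finset.card_univ,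
        smul_eq_mul] at h3
      have h4 : (Fintype.card Tr - 1) * K + K = Fintype.card Tr * K := by
        obtain ⟨s, hs'⟩ := Nat.exists_eq_add_of_le hs
        rw [hs', Nat.add_sub_cancel_left]
        ring
      omega
    let a : Tr → ℕ := fun τ => if τ = τ0 then Nat.card B - ∑ τ ∈ Finset.univ.erase τ0, w τ else w τ
    have ha : ∑ τ, a τ = Nat.card B := by
      rw [← Finset.add_sum_erase _ _ (Finset.mem_univ τ0)]
      have h3 : a τ0 = Nat.card B - ∑ τ ∈ Finset.univ.erase τ0, w τ := if_pos rfl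
      have h4 : ∑ τ ∈ Finset.univ.erase τ0, a τ = ∑ τ ∈ Finset.univ.erase τ0, w τ :=
        Finset.sum_congr rfl (fun τ hτ => if_neg (Finset.mem_erase.1 hτ).1)
      rw [h3, h4]
      omega
    have e : B ≃ (Σ τ : Tr, Fin (a τ)) := by
      apply Fintype.equivOfCardEq
      rw [Fintype.card_sigma, ← Nat.card_eq_fintype_card, ← ha]
      exact Finset.sum_congr rfl (fun τ _ => (Fintype.card_fin _).symm)
    refine ⟨fun b => (e b).1, fun τ => ?_⟩
    have h5 : Nat.card {b // (e b).1 = τ} = a τ := by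
      have e1 : {b // (e b).1 = τ} ≃ {p : (Σ τ : Tr, Fin (a τ)) // p.1 = τ} :=
        e.subtypeEquiv (fun b => Iff.rfl)
      rw [Nat.card_congr (e1.trans (Equiv.sigmaSubtype τ)), Nat.card_eq_fintype_card,
        Fintype.card_fin]
    rw [h5]
    by_cases hτ : τ = τ0
    · subst hτ
      have h3 : a τ = Nat.card B - ∑ τ ∈ Finset.univ.erase τ, w τ := if_pos rfl
      rw [h3]
      right
      omega
    · have h3 : a τ = min (Nat.card {a // f a = τ}) K := if_neg hτ
      rw [h3]
      unfold Cmp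
      omega

/-! ### The game -/

/-- The two assignments look the same: the blocks have colours, equally many of each colour up to
the threshold `K`, and the colours determine the assignments inside the blocks. -/
def Sim (K : ℕ) {k m : ℕ} (v : Fin k → N ⊕ ι × T) (V : Fin m → Set (N ⊕ ι × T))
    (v' : Fin k → N ⊕ κ × T) (V' : Fin m → Set (N ⊕ κ × T)) : Prop :=
  ∃ (C : Type) (col : ι → C) (col' : κ → C) (pe : C → Fin k → T → Prop)
    (ps : C → Fin m → T → Prop),
    (∀ c, Cmp K (Nat.card {i // col i = c}) (Nat.card {i // col' i = c})) ∧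
    (∀ i a x, v a = Sum.inr (i, x) ↔ pe (col i) a x) ∧
    (∀ i a x, v' a = Sum.inr (i, x) ↔ pe (col' i) a x) ∧
    (∀ i s x, Sum.inr (i, x) ∈ V s ↔ ps (col i) s x) ∧
    (∀ i s x, Sum.inr (i, x) ∈ V' s ↔ ps (col' i) s x) ∧
    (∀ a y, v a = Sum.inl y ↔ v' a = Sum.inl y) ∧
    (∀ s y, Sum.inl y ∈ V s ↔ Sum.inl y ∈ V' s)

section

variable {K k m : ℕ} {v : Fin k → N ⊕ ι × T} {V : Fin m → Set (N ⊕ ι × T)}
  {v' : Fin k → N ⊕ κ × T} {V' : Fin m → Set (N ⊕ κ × T)}

lemma Sim.symm (h : Sim K v V v' V') : Sim K v' V' v V := by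
  obtain ⟨C, col, col', pe, ps, h1, h2, h3, h4, h5, h6, h7⟩ := h
  exact ⟨C, col', col, pe, ps, fun c => (h1 c).symm, h3, h2, h5, h4,
    fun a y => (h6 a y).symm, fun s y => (h7 s y).symm⟩

lemma Sim.mono {K' : ℕ} (h : Sim K v V v' V') (hK : K' ≤ K) : Sim K' v V v' V' := by
  obtain ⟨C, col, col', pe, ps, h1, h2⟩ := h
  exact ⟨C, col, col', pe, ps, fun c => (h1 c).mono hK, h2⟩

lemma Sim.match [Finite ι] (hK : 1 ≤ K) (h : Sim K v V v' V') :
    ∃ g : ι → κ, Set.InjOn g (used v) ∧ v' = mp g ∘ v ∧ ∀ a s, (v a ∈ V s ↔ v' a ∈ V' s) := by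
  obtain ⟨C, col, col', pe, ps, h1, h2, h3, h4, h5, h6, h7⟩ := h
  have hg : ∀ i : ι, ∃ i' : κ, col' i' = col i := by
    intro i
    have h8 : 1 ≤ Nat.card {j // col j = col i} := by
      have : Nonempty {j // col j = col i} := ⟨⟨i, rfl⟩⟩
      exact Nat.card_pos
    have h9 : 1 ≤ Nat.card {j // col' j = col i} := by
      have := h1 (col i)
      unfold Cmp at this
      omega
    have h10 : Nonempty {j // col' j = col i} := by
      by_contra hcon
      have := not_nonempty_iff.1 hcon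
      rw [Nat.card_of_isEmpty] at h9
      omega
    obtain ⟨⟨j, hj⟩⟩ := h10
    exact ⟨j, hj⟩
  choose g hg using hg
  have hv : v' = mp g ∘ v := by
    funext a
    show v' a = mp g (v a)
    rcases e : v a with y | ⟨i, x⟩
    · exact (h6 a y).1 e
    · have := (h2 i a x).1 e
      rw [← hg i] at this
      exact (h3 (g i) a x).2 this
  refine ⟨g, ?_, hv, ?_⟩
  · rintro i ⟨a, x, e⟩ j _ hij
    have h8 : col i = col j := by rw [← hg i, ← hg j, hij]
    have h9 := (h2 i a x).1 e
    rw [h8] at h9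
    have h10 := (h2 j a x).2 h9
    rw [e] at h10
    exact congrArg Prod.fst (Sum.inr_injective h10)
  · intro a s
    rw [hv]
    show v a ∈ V s ↔ mp g (v a) ∈ V' s
    rcases e : v a with y | ⟨i, x⟩
    · exact h7 s y
    · show Sum.inr (i, x) ∈ V s ↔ Sum.inr (g i, x) ∈ V' s
      rw [h4, h5, hg]

lemma Sim.set_step [Finite ι] [Finite κ] [Fintype T] [DecidableEq T]
    (h : Sim (Fintype.card (T → Bool) * K) v V v' V') (X : Set (N ⊕ ι × T)) :
    ∃ X' : Set (N ⊕ κ × T), Sim K v (Fin.cons X V) v' (Fin.cons X' V') := by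
  classical
  obtain ⟨C, col, col', pe, ps, h1, h2, h3, h4, h5, h6, h7⟩ := h
  let f : ι → (T → Bool) := fun i x => decide (Sum.inr (i, x) ∈ X)
  have hf : ∀ c, ∃ f' : {i' : κ // col' i' = c} → (T → Bool), ∀ τ,
      Cmp K (Nat.card {a : {i : ι // col i = c} // f a.1 = τ}) (Nat.card {b // f' b = τ}) :=
    fun c => split K (h1 c) (fun a => f a.1)
  choose f' hf' using hf
  let F : κ → (T → Bool) := fun i => f' (col' i) ⟨i, rfl⟩
  refine ⟨{z | (∃ y, z = Sum.inl y ∧ Sum.inl y ∈ X) ∨ ∃ i x, z = Sum.inr (i, x) ∧ F i x = true},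
    C × (T → Bool), fun i => (col i, f i), fun i => (col' i, F i), fun c => pe c.1,
    fun c => Fin.cons (fun x => c.2 x = true) (ps c.1), ?_, ?_, ?_, ?_, ?_, h6, ?_⟩
  · rintro ⟨c, τ⟩
    have e1 : {i // (col i, f i) = (c, τ)} ≃ {a : {i : ι // col i = c} // f a.1 = τ} :=
      { toFun := fun i => ⟨⟨i.1, (Prod.ext_iff.1 i.2).1⟩, (Prod.ext_iff.1 i.2).2⟩
        invFun := fun a => ⟨a.1.1, Prod.ext_iff.2 ⟨a.1.2, a.2⟩⟩
        left_inv := fun _ => rfl
        right_inv := fun _ => rfl }
    have hF : ∀ (i : κ) (hi : col' i = c), F i = f' c ⟨i, hi⟩ := by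
      intro i hi
      subst hi
      rfl
    have e2 : {i // (col' i, F i) = (c, τ)} ≃ {b : {i : κ // col' i = c} // f' c b = τ} :=
      { toFun := fun i => ⟨⟨i.1, (Prod.ext_iff.1 i.2).1⟩, by
          rw [← hF]; exact (Prod.ext_iff.1 i.2).2⟩
        invFun := fun a => ⟨a.1.1, Prod.ext_iff.2 ⟨a.1.2, by
          show F a.1.1 = τ
          rw [hF a.1.1 a.1.2]; exact a.2⟩⟩
        left_inv := fun _ => rfl
        right_inv := fun _ => rfl }
    rw [Nat.card_congr e1, Nat.card_congr e2]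
    exact hf' c τ
  · exact fun i a x => h2 i a x
  · exact fun i a x => h3 i a x
  · intro i s x
    refine Fin.cases ?_ (fun s => ?_) s
    · show Sum.inr (i, x) ∈ X ↔ f i x = true
      exact (decide_eq_true_iff).symm
    · exact h4 i s x
  · intro i s x
    refine Fin.cases ?_ (fun s => ?_) s
    · show ((∃ y, (Sum.inr (i, x) : N ⊕ κ × T) = Sum.inl y ∧ Sum.inl y ∈ X) ∨
        ∃ i' x', (Sum.inr (i, x) : N ⊕ κ × T) = Sum.inr (i', x') ∧ F i' x' = true) ↔ F i x = true
      constructor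
      · rintro (⟨y, hy, -⟩ | ⟨i', x', he, h⟩)
        · exact absurd hy (by simp)
        · cases he
          exact h
      · intro h
        exact Or.inr ⟨i, x, rfl, h⟩
    · exact h5 i s x
  · intro s y
    refine Fin.cases ?_ (fun s => ?_) s
    · show Sum.inl y ∈ X ↔ ((∃ y', (Sum.inl y : N ⊕ κ × T) = Sum.inl y' ∧ Sum.inl y' ∈ X) ∨
        ∃ i' x', (Sum.inl y : N ⊕ κ × T) = Sum.inr (i', x') ∧ F i' x' = true)
      constructor
      · intro h
        exact Or.inl ⟨y, rfl, h⟩
      · rintro (⟨y', hy, h⟩ | ⟨i', x', he, -⟩)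
        · rw [Sum.inl_injective hy]
          exact h
        · exact absurd he (by simp)
    · exact h7 s y

lemma Sim.ex_step [Finite ι] [Finite κ] (h : Sim (K + 1) v V v' V') (x : N ⊕ ι × T) :
    ∃ x' : N ⊕ κ × T, Sim K (Fin.cons x v) V (Fin.cons x' v') V' := by
  classical
  obtain ⟨C, col, col', pe, ps, h1, h2, h3, h4, h5, h6, h7⟩ := h
  rcases x with y | ⟨i0, b⟩
  · refine ⟨Sum.inl y, C, col, col', fun c => Fin.cons (fun _ => False) (pe c), ps,
      fun c => (h1 c).mono (Nat.le_succ K), ?_, ?_, h4, h5, ?_, h7⟩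
    · intro i a x
      refine Fin.cases ?_ (fun a => ?_) a
      · show (Sum.inl y : N ⊕ ι × T) = Sum.inr (i, x) ↔ False
        simp
      · exact h2 i a x
    · intro i a x
      refine Fin.cases ?_ (fun a => ?_) a
      · show (Sum.inl y : N ⊕ κ × T) = Sum.inr (i, x) ↔ False
        simp
      · exact h3 i a x
    · intro a z
      refine Fin.cases ?_ (fun a => ?_) a
      · show (Sum.inl y : N ⊕ ι × T) = Sum.inl z ↔ (Sum.inl y : N ⊕ κ × T) = Sum.inl z
        simp
      · exact h6 a z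
  · -- a point in a block
    have h8 : 1 ≤ Nat.card {j // col j = col i0} := by
      have : Nonempty {j // col j = col i0} := ⟨⟨i0, rfl⟩⟩
      exact Nat.card_pos
    have h9 : 1 ≤ Nat.card {j // col' j = col i0} := by
      have := h1 (col i0)
      unfold Cmp at this
      omega
    have h10 : Nonempty {j // col' j = col i0} := by
      by_contra hcon
      have := not_nonempty_iff.1 hcon
      rw [Nat.card_of_isEmpty] at h9
      omega
    obtain ⟨⟨j0, hj0⟩⟩ := h10
    refine ⟨Sum.inr (j0, b), C × Bool, fun i => (col i, decide (i = i0)),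
      fun i => (col' i, decide (i = j0)),
      fun c => Fin.cons (fun x => c.2 = true ∧ x = b) (pe c.1), fun c => ps c.1, ?_, ?_, ?_,
      fun i s x => h4 i s x, fun i s x => h5 i s x, ?_, h7⟩
    · -- counting
      have key : ∀ (μ : Type) [Finite μ] (co : μ → C) (i0 : μ) (c : C),
          Nat.card {i // (co i, decide (i = i0)) = (c, true)} = (if c = co i0 then 1 else 0) ∧
          Nat.card {i // (co i, decide (i = i0)) = (c, false)} + (if c = co i0 then 1 else 0) =
            Nat.card {i // co i = c} := by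
        intro μ _ co i0 c
        have e0 : ∀ p : μ → Prop, Nat.card {i // p i} = Set.ncard {i | p i} := fun p => rfl
        rw [e0, e0, e0]
        have a1 : {i | (co i, decide (i = i0)) = (c, true)} =
            if c = co i0 then {i0} else (∅ : Set μ) := by
          ext i
          by_cases hc : c = co i0
          · rw [if_pos hc]
            simp only [Set.mem_setOf_eq, Prod.mk.injEq, decide_eq_true_eq, Set.mem_singleton_iff]
            constructor
            · exact fun h => h.2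
            · rintro rfl
              exact ⟨hc.symm, rfl⟩
          · rw [if_neg hc]
            simp only [Set.mem_setOf_eq, Prod.mk.injEq, decide_eq_true_eq, Set.mem_empty_iff_false,
              iff_false]
            rintro ⟨h, rfl⟩
            exact hc h.symm
        have a2 : {i | (co i, decide (i = i0)) = (c, false)} = {i | co i = c} \ {i0} := by
          ext i
          simp only [Set.mem_setOf_eq, Prod.mk.injEq, decide_eq_false_iff_not, Set.mem_diff,
            Set.mem_singleton_iff]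
        rw [a1, a2]
        by_cases hc : c = co i0
        · have hmem : i0 ∈ {i | co i = c} := hc.symm
          simp only [if_pos hc, Set.ncard_singleton, true_and]
          exact Set.ncard_diff_singleton_add_one hmem (Set.toFinite _)
        · have hmem : i0 ∉ {i | co i = c} := fun h => hc (h : co i0 = c).symm
          simp only [if_neg hc, Set.ncard_empty, true_and, Nat.add_zero]
          rw [Set.diff_singleton_eq_self hmem]
      rintro ⟨c, p⟩
      have k1 := key ι col i0 c
      have k2 := key κ col' j0 c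
      rw [hj0] at k2
      have k3 := h1 c
      unfold Cmp at k3 ⊢
      cases p
      · have := k1.2
        have := k2.2
        show Nat.card {i // (col i, decide (i = i0)) = (c, false)} =
          Nat.card {i // (col' i, decide (i = j0)) = (c, false)} ∨
          (K ≤ Nat.card {i // (col i, decide (i = i0)) = (c, false)} ∧
          K ≤ Nat.card {i // (col' i, decide (i = j0)) = (c, false)})
        by_cases hc : c = col i0
        · simp only [if_pos hc] at *
          omega
        · simp only [if_neg hc] at *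
          omega
      · left
        exact k1.1.trans k2.1.symm
    · intro i a x
      refine Fin.cases ?_ (fun a => ?_) a
      · show (Sum.inr (i0, b) : N ⊕ ι × T) = Sum.inr (i, x) ↔ decide (i = i0) = true ∧ x = b
        rw [decide_eq_true_iff]
        constructor
        · intro h
          have := Sum.inr_injective h
          exact ⟨(Prod.ext_iff.1 this).1.symm, (Prod.ext_iff.1 this).2.symm⟩
        · rintro ⟨rfl, rfl⟩
          rfl
      · exact h2 i a x
    · intro i a x
      refine Fin.cases ?_ (fun a => ?_) a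
      · show (Sum.inr (j0, b) : N ⊕ κ × T) = Sum.inr (i, x) ↔ decide (i = j0) = true ∧ x = b
        rw [decide_eq_true_iff]
        constructor
        · intro h
          have := Sum.inr_injective h
          exact ⟨(Prod.ext_iff.1 this).1.symm, (Prod.ext_iff.1 this).2.symm⟩
        · rintro ⟨rfl, rfl⟩
          rfl
      · exact h3 i a x
    · intro a z
      refine Fin.cases ?_ (fun a => ?_) a
      · show (Sum.inr (i0, b) : N ⊕ ι × T) = Sum.inl z ↔ (Sum.inr (j0, b) : N ⊕ κ × T) = Sum.inl z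
        simp
      · exact h6 a z

end

/-- the game determines the truth of monadic second-order formulas -/
theorem efM (T : Type) [Fintype T] [DecidableEq T] {k m : ℕ} (φ : MFm S ar k m) : ∃ K, 1 ≤ K ∧
    ∀ (N ι κ : Type) [Finite ι] [Finite κ] [Nonempty ι] [Nonempty κ]
    (R : Interp S ar (N ⊕ ι × T)) (R' : Interp S ar (N ⊕ κ × T)), LI R R' →
    ∀ v V v' V', Sim K v V v' V' → (φ.Holds R v V ↔ φ.Holds R' v' V') := by
  induction φ with
  | eq i j =>
    refine ⟨1, le_rfl, fun N ι κ _ _ _ _ R R' _ v V v' V' h => ?_⟩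
    obtain ⟨g, hg, hv, -⟩ := h.match le_rfl
    show v i = v j ↔ v' i = v' j
    rw [hv]
    show v i = v j ↔ mp g (v i) = mp g (v j)
    refine ⟨fun h => by rw [h], fun h => ?_⟩
    rcases e : v i with y | ⟨l, x⟩
    · rcases e' : v j with y' | ⟨l', x'⟩
      · rw [e, e'] at h
        have h' : (Sum.inl y : N ⊕ κ × T) = Sum.inl y' := h
        rw [Sum.inl_injective h']
      · rw [e, e'] at h
        exact absurd h (by simp [mp])
    · rcases e' : v j with y' | ⟨l', x'⟩
      · rw [e, e'] at h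
        exact absurd h (by simp [mp])
      · rw [e, e'] at h
        have h1 : (Sum.inr (g l, x) : N ⊕ κ × T) = Sum.inr (g l', x') := h
        have h2 := Prod.ext_iff.1 (Sum.inr_injective h1)
        have h3 : l = l' := hg ⟨i, x, e⟩ ⟨j, x', e'⟩ h2.1
        have h4 : x = x' := h2.2
        rw [h3, h4]
  | rel s f =>
    refine ⟨1, le_rfl, fun N ι κ _ _ _ _ R R' hL v V v' V' h => ?_⟩
    obtain ⟨g, hg, hv, -⟩ := h.match le_rfl
    show R s (fun i => v (f i)) ↔ R' s (fun i => v' (f i))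
    rw [hv]
    refine (hL s (fun i => v (f i)) g ?_).symm
    intro i hi j hj hij
    obtain ⟨a, x, ha⟩ := hi
    obtain ⟨b, y, hb⟩ := hj
    exact hg ⟨f a, x, ha⟩ ⟨f b, y, hb⟩ hij
  | mem i j =>
    refine ⟨1, le_rfl, fun N ι κ _ _ _ _ R R' _ v V v' V' h => ?_⟩
    obtain ⟨g, -, -, hm⟩ := h.match le_rfl
    exact hm i j
  | not φ ih =>
    obtain ⟨K, hK, ih⟩ := ih
    exact ⟨K, hK, fun N ι κ _ _ _ _ R R' hL v V v' V' h => not_congr (ih N ι κ R R' hL _ _ _ _ h)⟩
  | and φ ψ ih ih' =>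
    obtain ⟨K, hK, ih⟩ := ih
    obtain ⟨K', hK', ih'⟩ := ih'
    exact ⟨max K K', hK.trans (le_max_left _ _), fun N ι κ _ _ _ _ R R' hL v V v' V' h =>
      and_congr (ih N ι κ R R' hL _ _ _ _ (h.mono (le_max_left _ _)))
        (ih' N ι κ R R' hL _ _ _ _ (h.mono (le_max_right _ _)))⟩
  | ex φ ih =>
    obtain ⟨K, hK, ih⟩ := ih
    refine ⟨K + 1, by omega, fun N ι κ _ _ _ _ R R' hL v V v' V' h => ?_⟩
    constructor
    · rintro ⟨x, hx⟩
      obtain ⟨x', hx'⟩ := h.ex_step x
      exact ⟨x', (ih N ι κ R R' hL _ _ _ _ hx').1 hx⟩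
    · rintro ⟨x, hx⟩
      obtain ⟨x', hx'⟩ := h.symm.ex_step x
      exact ⟨x', (ih N κ ι R' R hL.symm _ _ _ _ hx').1 hx⟩
  | exSet φ ih =>
    obtain ⟨K, hK, ih⟩ := ih
    refine ⟨Fintype.card (T → Bool) * K, Nat.mul_le_mul Fintype.card_pos hK,
      fun N ι κ _ _ _ _ R R' hL v V v' V' h => ?_⟩
    constructor
    · rintro ⟨X, hX⟩
      obtain ⟨X', hX'⟩ := h.set_step X
      exact ⟨X', (ih N ι κ R R' hL _ _ _ _ hX').1 hX⟩
    · rintro ⟨X, hX⟩
      obtain ⟨X', hX'⟩ := h.symm.set_step X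
      exact ⟨X', (ih N κ ι R' R hL.symm _ _ _ _ hX').1 hX⟩

/-- a model with many exchangeable blocks can be enlarged by any number of blocks -/
theorem pumpXM (T : Type) [Fintype T] [DecidableEq T] (φ : MFm S ar 0 0) : ∃ q, 1 ≤ q ∧
    ∀ (N ι κ : Type) [Finite ι] [Finite κ] (R : Interp S ar (N ⊕ ι × T)),
      (∀ π : Equiv.Perm ι, Au R (bp π)) → q ≤ Nat.card ι → q ≤ Nat.card κ →
      (MSat R φ ↔ MSat (ext R κ) φ) := by
  obtain ⟨K, hK, h⟩ := efM T φ
  refine ⟨K, hK, fun N ι κ _ _ R hR h1 h2 => ?_⟩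
  have : Nonempty ι := by
    by_contra hcon
    have := not_nonempty_iff.1 hcon
    rw [Nat.card_of_isEmpty] at h1
    omega
  have : Nonempty κ := by
    by_contra hcon
    have := not_nonempty_iff.1 hcon
    rw [Nat.card_of_isEmpty] at h2
    omega
  refine h N ι κ R (ext R κ) (LI_ext hR κ) _ _ _ _ ?_
  refine ⟨Unit, fun _ => (), fun _ => (), fun _ a => a.elim0, fun _ a => a.elim0, ?_,
    fun _ a => a.elim0, fun _ a => a.elim0, fun _ a => a.elim0, fun _ a => a.elim0,
    fun a => a.elim0, fun a => a.elim0⟩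
  intro c
  right
  have e1 : Nat.card {i : ι // (fun _ => () : ι → Unit) i = c} = Nat.card ι :=
    Nat.card_congr (Equiv.subtypeUnivEquiv (fun _ => rfl))
  have e2 : Nat.card {i : κ // (fun _ => () : κ → Unit) i = c} = Nat.card κ :=
    Nat.card_congr (Equiv.subtypeUnivEquiv (fun _ => rfl))
  rw [e1, e2]
  exact ⟨h1, h2⟩

/-- pumping on `Fin n` -/
theorem pumpM (φ : MFm S ar 0 0) (t : ℕ) : ∃ q₀, 1 ≤ q₀ ∧ ∀ {n q : ℕ}, q₀ ≤ q →
    ∀ R : Interp S ar (Fin n), MSat R φ → ∀ u : Fin q × Fin t → Fin n, Function.Injective u →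
    (∀ (π : Equiv.Perm (Fin q)) (σ : Equiv.Perm (Fin n)), (∀ i x, σ (u (i, x)) = u (π i, x)) →
      (∀ z, (∀ p, u p ≠ z) → σ z = z) → Au R σ) → ∀ j : ℕ,
    ∃ R' : Interp S ar (Fin (n + t * j)), MSat R' φ := by
  classical
  obtain ⟨q₀, hq₀, h⟩ := pumpXM (Fin t) φ
  refine ⟨q₀, hq₀, fun {n q} hq R hM u hu hR j => ?_⟩
  -- decomposition of the universe
  let e1 : {z : Fin n // ¬ z ∈ Set.range u} ⊕ (Fin q × Fin t) ≃ Fin n :=
    ((Equiv.sumComm _ _).trans (Equiv.sumCongr (Equiv.ofInjective u hu) (Equiv.refl _))).trans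
      (Equiv.sumCompl (fun z => z ∈ Set.range u))
  have he2 : ∀ p, e1 (Sum.inr p) = u p := fun p => rfl
  let R0 : Interp S ar ({z : Fin n // ¬ z ∈ Set.range u} ⊕ (Fin q × Fin t)) :=
    fun s w => R s (e1 ∘ w)
  have hM0 : MSat R0 φ := (MSat.iso R e1.symm φ).1 hM
  have hR0 : ∀ π : Equiv.Perm (Fin q), Au R0 (bp π) := by
    intro π s w
    have h := hR π (e1.symm.trans ((bp π).trans e1)) (by
      intro i x
      rw [← he2]
      show e1 (bp π (e1.symm (e1 (Sum.inr (i, x))))) = _
      rw [Equiv.symm_apply_apply, bp_eq]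
      rfl) (by
      intro z hz
      have : z = e1 (Sum.inl ⟨z, fun ⟨p, hp⟩ => hz p hp⟩) := rfl
      rw [this]
      show e1 (bp π (e1.symm (e1 (Sum.inl _)))) = _
      rw [Equiv.symm_apply_apply, bp_eq]
      rfl)
    show R s (e1 ∘ (bp π ∘ w)) ↔ R s (e1 ∘ w)
    rw [← h s (e1 ∘ w)]
    have : (e1.symm.trans ((bp π).trans e1)) ∘ (e1 ∘ w) = e1 ∘ (bp π ∘ w) := by
      funext a
      show e1 (bp π (e1.symm (e1 (w a)))) = _
      rw [Equiv.symm_apply_apply]
      rfl
    rw [this]
  have h1 : MSat (ext R0 (Fin (q + j))) φ := (h _ (Fin q) (Fin (q + j)) R0 hR0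
    (by rwa [Nat.card_eq_fintype_card, Fintype.card_fin])
    (by rw [Nat.card_eq_fintype_card, Fintype.card_fin]; omega)).1 hM0
  have hc : Fintype.card ({z : Fin n // ¬ z ∈ Set.range u} ⊕ (Fin (q + j) × Fin t)) = n + t * j := by
    have h2 := Fintype.card_congr e1
    rw [Fintype.card_sum, Fintype.card_prod, Fintype.card_fin, Fintype.card_fin, Fintype.card_fin] at h2
    rw [Fintype.card_sum, Fintype.card_prod, Fintype.card_fin, Fintype.card_fin]
    calc _ = Fintype.card {z : Fin n // ¬ z ∈ Set.range u} + q * t + t * j := by ring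
      _ = _ := by rw [h2]
  exact ⟨_, (MSat.iso _ (Fintype.equivFinOfCardEq hc) φ).1 h1⟩

end Pool.Agent.Helper6.MC
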