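import Pool.Agent.Helper6.MC.Deg

/-!
# Few automorphisms or a homogeneous family of blocks: counting
-/

set_option autoImplicit false

namespace Pool.Agent.Helper6.MC

/-- index of an element of a finite set -/
noncomputable def idx {M : Type} [DecidableEq M] (T : Finset M) (y : M) : ℕ :=
  if h : y ∈ T then (T.equivFin ⟨y, h⟩ : ℕ) else 0

lemma idx_lt {M : Type} [DecidableEq M] {T : Finset M} {y : M} (h : y ∈ T) : idx T y < T.card := by
  unfold idx
  rw [dif_pos h]
  exact (T.equivFin ⟨y, h⟩).is_lt

lemma idx_inj {M : Type} [DecidableEq M] {T : Finset M} {y y' : M} (h : y ∈ T) (h' : y' ∈ T)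
    (e : idx T y = idx T y') : y = y' := by
  unfold idx at e
  rw [dif_pos h, dif_pos h'] at e
  have h1 := T.equivFin.injective (Fin.ext e)
  exact congrArg Subtype.val h1

/-- counting along a rank function -/
lemma count_le {X M : Type} [Fintype X] [Fintype M] [DecidableEq M] (a : X → M → M)
    (ha : Function.Injective a) (ρ b : M → ℕ) (T : M → X → Finset M)
    (h1 : ∀ x g, a g x ∈ T x g) (h2 : ∀ x g, (T x g).card ≤ b x)
    (h3 : ∀ x g h, (∀ y, ρ y < ρ x → a g y = a h y) → T x g = T x h) :
    Fintype.card X ≤ ∏ x, b x := by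
  classical
  have key : Function.Injective (fun (g : X) (x : M) =>
      (⟨idx (T x g) (a g x), (idx_lt (h1 x g)).trans_le (h2 x g)⟩ : Fin (b x))) := by
    intro g h hgh
    apply ha
    have key : ∀ n x, ρ x = n → a g x = a h x := by
      intro n
      induction n using Nat.strong_induction_on with
      | _ n ih =>
        intro x hx
        have e : T x g = T x h := h3 x g h (fun y hy => ih (ρ y) (hx ▸ hy) y rfl)
        have h4 : idx (T x g) (a g x) = idx (T x h) (a h x) := congrArg Fin.val (congrFun hgh x)
        rw [← e] at h4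
        exact idx_inj (h1 x g) (e ▸ h1 x h) h4
    funext x
    exact key _ x rfl
  have h5 := Fintype.card_le_of_injective _ key
  rw [Fintype.card_pi] at h5
  simpa using h5

variable {M Col : Type} [Fintype M] [DecidableEq M] [DecidableEq Col]

/-- the minority graph -/
def Gr (c : M → M → Col) (P : Finset M) (L : ℕ) : SimpleGraph M := SimpleGraph.fromRel (Ed c P L)

/-- automorphisms fixing everything outside the large classes -/
def FixA (c : M → M → Col) (P : Finset M) (L : ℕ) (g : Equiv.Perm M) : Prop :=
  IsAut c g ∧ ∀ x, x ∉ LG c P L → g x = x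

variable {c : M → M → Col} {P : Finset M} {L : ℕ}

lemma IsAut.inv {g : Equiv.Perm M} (h : IsAut c g) : IsAut c g.symm := by
  intro x y
  have := h (g.symm x) (g.symm y)
  rw [Equiv.apply_symm_apply, Equiv.apply_symm_apply] at this
  exact this.symm

lemma IsAut.mul {g g' : Equiv.Perm M} (h : IsAut c g) (h' : IsAut c g') :
    IsAut c (g'.trans g) := by
  intro x y
  exact (h _ _).trans (h' _ _)

lemma FixA.inv {g : Equiv.Perm M} (h : FixA c P L g) : FixA c P L g.symm := by
  refine ⟨h.1.inv, fun x hx => ?_⟩
  rw [Equiv.symm_apply_eq]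
  exact (h.2 x hx).symm

lemma FixA.fixP {g : Equiv.Perm M} (h : FixA c P L g) : ∀ p ∈ P, g p = p := by
  intro p hp
  apply h.2
  intro h1
  exact (mem_LG.1 h1).1 hp

lemma Gr_adj {x y : M} : (Gr c P L).Adj x y ↔ x ≠ y ∧ (Ed c P L x y ∨ Ed c P L y x) := by
  unfold Gr
  exact SimpleGraph.fromRel_adj _ _ _

lemma reach_map (hf : Flip c) (hP : Hit c P L) {g : Equiv.Perm M} (h : FixA c P L g) {x y : M}
    (hr : (Gr c P L).Reachable x y) : (Gr c P L).Reachable (g x) (g y) := by
  let F : Gr c P L →g Gr c P L :=
    { toFun := g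
      map_rel' := by
        intro a b hab
        rw [Gr_adj] at hab ⊢
        refine ⟨fun he => hab.1 (g.injective he), ?_⟩
        rcases hab.2 with h1 | h1
        · exact Or.inl (aut_Ed hf hP h.1 h.fixP h1)
        · exact Or.inr (aut_Ed hf hP h.1 h.fixP h1) }
  exact hr.map F

/-- components -/
noncomputable def Cp (c : M → M → Col) (P : Finset M) (L : ℕ) (x : M) : Finset M :=
  open Classical in Finset.univ.filter (fun y => (Gr c P L).Reachable x y)

lemma mem_Cp {x y : M} : y ∈ Cp c P L x ↔ (Gr c P L).Reachable x y := by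
  unfold Cp; simp

lemma Cp_card_map (hf : Flip c) (hP : Hit c P L) {g : Equiv.Perm M} (h : FixA c P L g) (x : M) :
    (Cp c P L (g x)).card ≤ (Cp c P L x).card := by
  apply Finset.card_le_card_of_injOn (fun y => g.symm y)
  · intro y hy
    have h1 := reach_map hf hP h.inv (mem_Cp.1 (Finset.mem_coe.1 hy))
    rw [Equiv.symm_apply_apply] at h1
    exact Finset.mem_coe.2 (mem_Cp.2 h1)
  · intro y _ z _ hyz
    exact g.symm.injective hyz

lemma LG_reach {x y : M} (hx : x ∈ LG c P L) (hr : (Gr c P L).Reachable x y) : y ∈ LG c P L := by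
  obtain ⟨p⟩ := hr
  induction p with
  | nil => exact hx
  | cons h p ih =>
    apply ih
    rcases (Gr_adj.1 h).2 with h1 | h1
    · exact h1.2.1
    · exact h1.1

/-- root of the component -/
noncomputable def rt (c : M → M → Col) (P : Finset M) (L : ℕ) (x : M) : M :=
  Quot.out ((Gr c P L).connectedComponentMk x)

lemma rt_reach (x : M) : (Gr c P L).Reachable (rt c P L x) x := by
  have h : (Gr c P L).connectedComponentMk (rt c P L x) = (Gr c P L).connectedComponentMk x :=
    Quot.out_eq _
  exact SimpleGraph.ConnectedComponent.eq.1 h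

lemma rt_eq {x y : M} (h : (Gr c P L).Reachable x y) : rt c P L x = rt c P L y := by
  unfold rt
  rw [SimpleGraph.ConnectedComponent.eq.2 h]

lemma reach_of_rt {x y : M} (h : rt c P L x = rt c P L y) : (Gr c P L).Reachable x y := by
  have h1 := (rt_reach (c := c) (P := P) (L := L) x).symm
  rw [h] at h1
  exact h1.trans (rt_reach y)

lemma exists_par {x : M} (hx : rt c P L x ≠ x) : ∃ y, (Gr c P L).Adj x y ∧
    (Gr c P L).dist y (rt c P L y) < (Gr c P L).dist x (rt c P L x) := by
  obtain ⟨p, hp⟩ := (rt_reach (c := c) (P := P) (L := L) x).symm.exists_walk_length_eq_dist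
  rw [← hp]
  have key : ∀ (r : M) (p : (Gr c P L).Walk x r), r ≠ x → ∃ y, (Gr c P L).Adj x y ∧
      (Gr c P L).dist y r < p.length := by
    intro r p hr
    cases p with
    | nil => exact absurd rfl hr
    | @cons _ y _ h p =>
      refine ⟨y, h, ?_⟩
      have := SimpleGraph.dist_le p
      rw [SimpleGraph.Walk.length_cons]
      omega
  obtain ⟨y, h, h'⟩ := key _ p hx
  have e : rt c P L y = rt c P L x := rt_eq h.symm.reachable
  exact ⟨y, h, by rw [e]; exact h'⟩

/-- images under the automorphisms -/
noncomputable def Ob (c : M → M → Col) (P : Finset M) (L : ℕ) (x : M) : Finset M :=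
  open Classical in Finset.univ.filter (fun y => ∃ g, FixA c P L g ∧ g x = y)

lemma mem_Ob {x y : M} : y ∈ Ob c P L x ↔ ∃ g, FixA c P L g ∧ g x = y := by
  unfold Ob; simp

/-- roots of big components -/
noncomputable def Big (c : M → M → Col) (P : Finset M) (L k : ℕ) : Finset M :=
  open Classical in Finset.univ.filter (fun x => rt c P L x = x ∧ k < (Cp c P L x).card)

lemma Big_card (k : ℕ) : (Big c P L k).card ≤ Fintype.card M / (k + 1) := by
  classical
  rw [Nat.le_div_iff_mul_le (by omega)]
  have h1 : ∑ x ∈ Big c P L k, (k + 1) ≤ ∑ x ∈ Big c P L k, (Cp c P L x).card := by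
    refine Finset.sum_le_sum (fun x hx => ?_)
    unfold Big at hx
    exact (Finset.mem_filter.1 hx).2.2
  have h2 : ((Big c P L k).biUnion (fun x => Cp c P L x)).card =
      ∑ x ∈ Big c P L k, (Cp c P L x).card := by
    apply Finset.card_biUnion
    intro x hx y hy hxy
    show Disjoint (Cp c P L x) (Cp c P L y)
    rw [Finset.disjoint_left]
    intro z hz hz'
    unfold Big at hx hy
    have hx' := (Finset.mem_filter.1 hx).2.1
    have hy' := (Finset.mem_filter.1 hy).2.1
    have h3 := rt_eq (mem_Cp.1 hz)
    have h4 := rt_eq (mem_Cp.1 hz')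
    rw [hx'] at h3
    rw [hy'] at h4
    exact hxy (h3.trans h4.symm)
  rw [← h2] at h1
  rw [Finset.sum_const, smul_eq_mul] at h1
  exact h1.trans (Finset.card_le_univ _)

/-- the automorphisms which fix everything outside the large classes -/
lemma card_FixA (hf : Flip c) (hP : Hit c P L) {k q : ℕ} (hL : 1 ≤ L)
    (hO : ∀ x ∈ LG c P L, rt c P L x = x → (Cp c P L x).card ≤ k → (Ob c P L x).card ≤ q * k)
    [Fintype {g : Equiv.Perm M // FixA c P L g}] :
    Fintype.card {g : Equiv.Perm M // FixA c P L g} ≤
      Fintype.card M ^ (Fintype.card M / (k + 1)) * (q * k + 1) ^ Fintype.card M *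
        (2 * L) ^ Fintype.card M := by
  classical
  have hpar : ∀ x : M, ∃ y, rt c P L x ≠ x → (Gr c P L).Adj x y ∧
      (Gr c P L).dist y (rt c P L y) < (Gr c P L).dist x (rt c P L x) := by
    intro x
    by_cases hx : rt c P L x ≠ x
    · obtain ⟨y, hy⟩ := exists_par hx
      exact ⟨y, fun _ => hy⟩
    · exact ⟨x, fun h => absurd h hx⟩
  choose par hpar using hpar
  let b : M → ℕ := fun x => if x ∉ LG c P L then 1 else if rt c P L x = x then
    (if (Cp c P L x).card ≤ k then q * k + 1 else Fintype.card M) else 2 * L
  let T : M → {g : Equiv.Perm M // FixA c P L g} → Finset M := fun x g =>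
    if x ∉ LG c P L then {x} else if rt c P L x = x then
    (if (Cp c P L x).card ≤ k then Ob c P L x else Finset.univ) else Nb c P L (g.1 (par x))
  have h1 := count_le (X := {g : Equiv.Perm M // FixA c P L g}) (M := M) (fun g => g.1)
    (fun g h hgh => Subtype.ext (Equiv.ext (fun x => congrFun hgh x)))
    (fun x => (Gr c P L).dist x (rt c P L x)) b T ?_ ?_ ?_
  · refine h1.trans ?_
    have h2 : ∀ x ∈ (Finset.univ : Finset M), b x ≤
        (if x ∈ Big c P L k then Fintype.card M else 1) * (q * k + 1) * (2 * L) := by
      intro x _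
      have hn : 1 ≤ Fintype.card M := Fintype.card_pos_iff.2 ⟨x⟩
      have hqk : 1 ≤ q * k + 1 := by omega
      have hL2 : 1 ≤ 2 * L := by omega
      have hi : 1 ≤ (if x ∈ Big c P L k then Fintype.card M else 1) := by split_ifs <;> omega
      have hb : b x = if x ∉ LG c P L then 1 else if rt c P L x = x then
        (if (Cp c P L x).card ≤ k then q * k + 1 else Fintype.card M) else 2 * L := rfl
      rw [hb]
      by_cases hx : x ∉ LG c P L
      · rw [if_pos hx]
        exact Nat.mul_le_mul (Nat.mul_le_mul hi hqk) hL2
      · rw [if_neg hx]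
        by_cases hr : rt c P L x = x
        · rw [if_pos hr]
          by_cases hc : (Cp c P L x).card ≤ k
          · rw [if_pos hc]
            calc q * k + 1 = 1 * (q * k + 1) * 1 := by ring
              _ ≤ _ := Nat.mul_le_mul (Nat.mul_le_mul hi le_rfl) hL2
          · rw [if_neg hc]
            have : x ∈ Big c P L k := by
              unfold Big
              rw [Finset.mem_filter]
              exact ⟨Finset.mem_univ _, hr, not_le.1 hc⟩
            rw [if_pos this]
            calc Fintype.card M = Fintype.card M * 1 * 1 := by ring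
              _ ≤ _ := Nat.mul_le_mul (Nat.mul_le_mul le_rfl hqk) hL2
        · rw [if_neg hr]
          calc 2 * L = 1 * 1 * (2 * L) := by ring
            _ ≤ _ := Nat.mul_le_mul (Nat.mul_le_mul hi hqk) le_rfl
    refine (Finset.prod_le_prod' h2).trans ?_
    rw [Finset.prod_mul_distrib, Finset.prod_mul_distrib, Finset.prod_const, Finset.prod_const,
      Finset.card_univ, Finset.prod_ite_mem, Finset.univ_inter, Finset.prod_const]
    apply Nat.mul_le_mul_right
    apply Nat.mul_le_mul_right
    rcases Nat.eq_zero_or_pos (Fintype.card M) with hn | hn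
    · have h3 : (Big c P L k).card = 0 := by
        have := Big_card (c := c) (P := P) (L := L) k
        rw [hn] at this
        simpa using this
      rw [h3, hn]
      simp
    · exact Nat.pow_le_pow_right hn (Big_card k)
  · intro x g
    show g.1 x ∈ (if x ∉ LG c P L then {x} else if rt c P L x = x then
      (if (Cp c P L x).card ≤ k then Ob c P L x else Finset.univ) else
        Nb c P L (g.1 (par x)) : Finset M)
    by_cases hx : x ∉ LG c P L
    · rw [if_pos hx, Finset.mem_singleton]
      exact g.2.2 x hx
    · rw [if_neg hx]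
      by_cases hr : rt c P L x = x
      · rw [if_pos hr]
        by_cases hc : (Cp c P L x).card ≤ k
        · rw [if_pos hc]
          exact mem_Ob.2 ⟨g.1, g.2, rfl⟩
        · rw [if_neg hc]
          exact Finset.mem_univ _
      · rw [if_neg hr, mem_Nb]
        have h3 := (Gr_adj.1 (hpar x hr).1).2
        have h4 : Ed c P L (par x) x := by
          rcases h3 with h3 | h3
          · exact Ed_symm hf hP h3
          · exact h3
        exact aut_Ed hf hP g.2.1 g.2.fixP h4
  · intro x g
    show (if x ∉ LG c P L then {x} else if rt c P L x = x then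
      (if (Cp c P L x).card ≤ k then Ob c P L x else Finset.univ) else
        Nb c P L (g.1 (par x)) : Finset M).card ≤ (if x ∉ LG c P L then 1 else
        if rt c P L x = x then (if (Cp c P L x).card ≤ k then q * k + 1 else Fintype.card M)
          else 2 * L)
    by_cases hx : x ∉ LG c P L
    · rw [if_pos hx, if_pos hx]
      simp
    · rw [if_neg hx, if_neg hx]
      by_cases hr : rt c P L x = x
      · rw [if_pos hr, if_pos hr]
        by_cases hc : (Cp c P L x).card ≤ k
        · rw [if_pos hc, if_pos hc]
          exact (hO x (not_not.1 hx) hr hc).trans (Nat.le_succ _)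
        · rw [if_neg hc, if_neg hc, Finset.card_univ]
      · rw [if_neg hr, if_neg hr]
        exact Nb_card hf hP _
  · intro x g h hgh
    show (if x ∉ LG c P L then {x} else if rt c P L x = x then
      (if (Cp c P L x).card ≤ k then Ob c P L x else Finset.univ) else
        Nb c P L (g.1 (par x)) : Finset M) = (if x ∉ LG c P L then {x} else if rt c P L x = x then
      (if (Cp c P L x).card ≤ k then Ob c P L x else Finset.univ) else
        Nb c P L (h.1 (par x)) : Finset M)
    by_cases hr : rt c P L x = x
    · rw [if_pos hr, if_pos hr]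
    · have h3 : g.1 (par x) = h.1 (par x) := hgh (par x) (hpar x hr).2
      rw [h3]

end Pool.Agent.Helper6.MC
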