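import Pool.Agent.Helper6.MC.PumpM
import Pool.Agent.Helper20.MW.Cl
import Pool.Agent.Helper20.MC.WildM

/-!
# Pumping homogeneous families of blocks: sentences with set quantifiers
-/

set_option autoImplicit false

namespace Pool.Agent.Helper6.MC

open FirstOrder FirstOrder.Language Pool.Agent.Helper20.Spectra Pool.Agent.Helper31.QD
  Pool.Agent.Helper29.MW Pool.Agent.Helper14.SS Pool.Agent.Helper20.MW Pool.Agent.Helper20.EX2

variable {S : Type} {ar : S → ℕ}

/-- translation of the formulas with set quantifiers -/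
theorem toMF {k m : ℕ} (φ : SFm (RelLang S ar) k m) :
    MF S ar k m (fun V I v X => @Sat (RelLang S ar) V (mkS I) k m φ v X) := by
  induction φ with
  | @fo k m φ =>
    refine (MF.fo (m := m) (BoundedFormula.relabel (fun i => Sum.inr i :
      Fin k → Empty ⊕ Fin k) φ : (RelLang S ar).BoundedFormula Empty (k + 0))).congr
      (fun V I v X => ?_)
    let _ := mkS I
    refine Iff.symm (BoundedFormula.realize_relabel.trans ?_)
    show _ ↔ Formula.Realize φ v
    unfold Formula.Realize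
    have e1 : (Sum.elim (default : Empty → V) (v ∘ Fin.castAdd 0) ∘
        (fun i => Sum.inr i : Fin k → Empty ⊕ Fin k)) = v := by
      funext i
      rfl
    have e2 : (v ∘ Fin.natAdd k : Fin 0 → V) = default := Subsingleton.elim _ _
    rw [e1, e2]
  | mem i j => exact MF.mem i j
  | not φ ih => exact ih.not
  | and φ ψ ih ih' => exact ih.and ih'
  | @ex k m φ ih =>
    refine MF.ex (P := fun V I v X x => @Sat (RelLang S ar) V (mkS I) _ _ φ (Fin.cons x v) X)
      (ih.congr (fun V I w X => ?_))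
    rw [Fin.cons_self_tail]
  | @exSet k m φ ih =>
    refine MF.exS (P := fun V I v X Y => @Sat (RelLang S ar) V (mkS I) _ _ φ v (Fin.cons Y X))
      (ih.congr (fun V I w X => ?_))
    rw [Fin.cons_self_tail]

/-- pumping on `Fin n` -/
theorem pumpS (φ : SFm (RelLang S ar) 0 0) (t : ℕ) : ∃ q₀, 1 ≤ q₀ ∧ ∀ {n q : ℕ}, q₀ ≤ q →
    ∀ R : Interp S ar (Fin n), Pool.Agent.Helper20.MC.HoldsM φ R →
    ∀ u : Fin q × Fin t → Fin n, Function.Injective u →
    (∀ (π : Equiv.Perm (Fin q)) (σ : Equiv.Perm (Fin n)), (∀ i x, σ (u (i, x)) = u (π i, x)) →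
      (∀ z, (∀ p, u p ≠ z) → σ z = z) → Au R σ) → ∀ j : ℕ,
    ∃ R' : Interp S ar (Fin (n + t * j)), Pool.Agent.Helper20.MC.HoldsM φ R' := by
  obtain ⟨ψ, hψ⟩ := toMF φ
  have key : ∀ {n : ℕ} (R : Interp S ar (Fin n)), MSat R ψ ↔
      Pool.Agent.Helper20.MC.HoldsM φ R := fun {n} R =>
    (hψ (Fin n) R Fin.elim0 Fin.elim0).trans (Pool.Agent.Helper20.MC.holdsM_iff φ R).symm
  obtain ⟨q₀, hq₀, h⟩ := pumpM ψ t
  refine ⟨q₀, hq₀, fun {n q} hq R hM u hu hR j => ?_⟩
  obtain ⟨R', hR'⟩ := h hq R ((key R).2 hM) u hu hR j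
  exact ⟨R', (key R').1 hR'⟩

end Pool.Agent.Helper6.MC
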